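import Mathlib

/-!
# Leavitt path algebras of finite quivers and Kronecker squares
-/

set_option autoImplicit false

namespace Pool.Agent.X329.Leavitt

/-- A finite quiver: finite types of vertices and arrows, source and range maps. -/
structure FQ where
  /-- the vertices -/
  V : Type
  /-- the arrows -/
  E : Type
  /-- the source map -/
  s : E → V
  /-- the range map -/
  r : E → V
  [fV : Fintype V]
  [dV : DecidableEq V]
  [fE : Fintype E]
  [dE : DecidableEq E]

attribute [instance] FQ.fV FQ.dV FQ.fE FQ.dE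

/-- The Kronecker square of a finite quiver: vertices are the pairs of vertices, arrows the pairs of
arrows. -/
def FQ.sq (Q : FQ) : FQ where
  V := Q.V × Q.V
  E := Q.E × Q.E
  s := fun e => (Q.s e.1, Q.s e.2)
  r := fun e => (Q.r e.1, Q.r e.2)

/-- The generators of the Leavitt path algebra: vertices `v`, arrows `e` and ghost arrows `e*`. -/
inductive Gen (Q : FQ) : Type
  | v (v : Q.V) : Gen Q
  | e (e : Q.E) : Gen Q
  | g (e : Q.E) : Gen Q

open FreeAlgebra in
/-- The defining relations of the Leavitt path algebra. (The relation `sum_v` says that the unit is the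
sum of the vertices; this is automatic in the algebra presented by the other relations, as the number of
vertices is finite.) -/
inductive Rel (K : Type) [Field K] (Q : FQ) : FreeAlgebra K (Gen Q) → FreeAlgebra K (Gen Q) → Prop
  | vv (v w : Q.V) : Rel K Q (ι K (.v v) * ι K (.v w)) (if v = w then ι K (.v v) else 0)
  | sum_v : Rel K Q (∑ v, ι K (.v v)) 1
  | se (e : Q.E) : Rel K Q (ι K (.v (Q.s e)) * ι K (.e e)) (ι K (.e e))
  | er (e : Q.E) : Rel K Q (ι K (.e e) * ι K (.v (Q.r e))) (ι K (.e e))
  | rg (e : Q.E) : Rel K Q (ι K (.v (Q.r e)) * ι K (.g e)) (ι K (.g e))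
  | gs (e : Q.E) : Rel K Q (ι K (.g e) * ι K (.v (Q.s e))) (ι K (.g e))
  | ck1 (e f : Q.E) :
      Rel K Q (ι K (.g e) * ι K (.e f)) (if e = f then ι K (.v (Q.r e)) else 0)
  | ck2 (v : Q.V) (hv : ∃ e, Q.s e = v) :
      Rel K Q (ι K (.v v)) (∑ e with Q.s e = v, ι K (.e e) * ι K (.g e))

/-- The Leavitt path algebra `L_K(Q)` of a finite quiver `Q`. -/
abbrev LPA (K : Type) [Field K] (Q : FQ) : Type := RingQuot (Rel K Q)

end Pool.Agent.X329.Leavitt
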