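import Pool.Agent.X329.Leavitt.U

/-!
# Splitting an arrow
-/

set_option autoImplicit false

namespace Pool.Agent.X329.Leavitt

open FreeAlgebra

variable {K : Type} [Field K]

section reindex

variable {E E' : Type} [Fintype E] [DecidableEq E] [Fintype E'] [DecidableEq E']
  {l : E → Bool} {l' : E' → Bool}

/-- reindexing -/
def reix (φ : E ≃ E') (h : ∀ e, l' (φ e) = l e) : U K E l →ₐ[K] U K E' l' :=
  Ulift ub (fun e => ua (φ e)) (fun e => uc (φ e)) (fun e => ua_ub _) (fun e => ub_uc _)
    (fun e f => by rw [uc_ua]; simp)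
    (by
      rw [← sum_l, ← Equiv.sum_comp φ]
      refine Finset.sum_congr rfl fun e _ => ?_
      rw [h])
    (by rw [← sum_1, ← Equiv.sum_comp φ])

theorem iso_reix (φ : E ≃ E') (h : ∀ e, l' (φ e) = l e) : Nonempty (U K E l ≃ₐ[K] U K E' l') := by
  have h' : ∀ e, l (φ.symm e) = l' e := fun e => by rw [← h, φ.apply_symm_apply]
  refine ⟨AlgEquiv.ofAlgHom (reix φ h) (reix φ.symm h') ?_ ?_⟩
  · refine U_ext ?_ ?_ ?_
    · simp [reix, Ulift_b]
    · intro e; simp [reix, Ulift_a]
    · intro e; simp [reix, Ulift_c]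
  · refine U_ext ?_ ?_ ?_
    · simp [reix, Ulift_b]
    · intro e; simp [reix, Ulift_a]
    · intro e; simp [reix, Ulift_c]

theorem iso_card (h1 : Fintype.card {e // l e = true} = Fintype.card {e // l' e = true})
    (h2 : Fintype.card E = Fintype.card E') : Nonempty (U K E l ≃ₐ[K] U K E' l') := by
  have h3 : Fintype.card {e // ¬ l e = true} = Fintype.card {e // ¬ l' e = true} := by
    have a1 := Fintype.card_subtype_compl (fun e => l e = true)
    have a2 := Fintype.card_subtype_compl (fun e => l' e = true)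
    rw [a1, a2, h1, h2]
  obtain ⟨e1⟩ : Nonempty ({e // l e = true} ≃ {e // l' e = true}) := Fintype.card_eq.1 h1
  obtain ⟨e2⟩ : Nonempty ({e // ¬ l e = true} ≃ {e // ¬ l' e = true}) := Fintype.card_eq.1 h3
  let φ : E ≃ E' := (Equiv.sumCompl (fun e => l e = true)).symm.trans
    ((Equiv.sumCongr e1 e2).trans (Equiv.sumCompl (fun e => l' e = true)))
  refine iso_reix φ fun e => ?_
  by_cases he : l e = true
  · have : φ e = e1 ⟨e, he⟩ := by
      simp only [φ, Equiv.trans_apply]
      rw [Equiv.sumCompl_symm_apply_of_pos (p := fun e => l e = true) he]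
      rfl
    rw [this, he]
    exact (e1 ⟨e, he⟩).2
  · have : φ e = e2 ⟨e, he⟩ := by
      simp only [φ, Equiv.trans_apply]
      rw [Equiv.sumCompl_symm_apply_of_neg (p := fun e => l e = true) he]
      rfl
    rw [this]
    have h := (e2 ⟨e, he⟩).2
    rw [Bool.not_eq_true] at h he
    rw [h, he]

end reindex

section expand

variable {P N : Type} [Fintype P] [DecidableEq P] [Fintype N] [DecidableEq N]

/-- arrows of the first algebra -/
abbrev E1 (P N : Type) : Type := Option P ⊕ N
/-- arrows of the second algebra -/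
abbrev E2 (P N : Type) : Type := (P ⊕ N) ⊕ N
/-- loops -/
abbrev rt {A B : Type} : A ⊕ B → Bool := Sum.isRight

theorem sumN : (∑ i : N, (ua (Sum.inr i) : U K (E1 P N) rt) * uc (Sum.inr i)) = ub := by
  rw [← sum_l]
  simp [Fintype.sum_sum_type]

theorem sumN' : (∑ i : N, (ua (Sum.inr i) : U K (E2 P N) rt) * uc (Sum.inr i)) = ub := by
  rw [← sum_l]
  simp [Fintype.sum_sum_type]

/-- arrows -/
def fa : E2 P N → U K (E1 P N) rt
  | Sum.inl (Sum.inl p) => ua (Sum.inl (some p))
  | Sum.inl (Sum.inr i) => ua (Sum.inl none) * ua (Sum.inr i)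
  | Sum.inr i => ua (Sum.inr i)

/-- ghost arrows -/
def fc : E2 P N → U K (E1 P N) rt
  | Sum.inl (Sum.inl p) => uc (Sum.inl (some p))
  | Sum.inl (Sum.inr i) => uc (Sum.inr i) * uc (Sum.inl none)
  | Sum.inr i => uc (Sum.inr i)

/-- splitting -/
def split : U K (E2 P N) rt →ₐ[K] U K (E1 P N) rt :=
  Ulift ub fa fc
    (fun e => by
      rcases e with (p | i) | i
      · exact ua_ub _
      · change (ua _ * ua _) * ub = ua _ * ua _
        rw [mul_assoc, ua_ub]
      · exact ua_ub _)
    (fun e => by
      rcases e with (p | i) | i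
      · exact ub_uc _
      · change ub * (uc _ * uc _) = uc _ * uc _
        rw [← mul_assoc, ub_uc]
      · exact ub_uc _)
    (fun e f => by
      rcases e with (p | i) | i <;> rcases f with (q | j) | j
      · simp [fa, fc, uc_ua]
      · change uc _ * (ua _ * ua _) = _
        rw [← mul_assoc, uc_ua]
        simp
      · simp [fa, fc, uc_ua]
      · change (uc _ * uc _) * ua _ = _
        rw [mul_assoc, uc_ua]
        simp
      · change (uc _ * uc _) * (ua _ * ua _) = _
        rw [mul_assoc, ← mul_assoc (uc (Sum.inl none)), uc_ua, if_pos rfl, ub_ua rfl, uc_ua]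
        simp
      · change (uc _ * uc _) * ua _ = _
        rw [mul_assoc, uc_ua]
        simp
      · simp [fa, fc, uc_ua]
      · change uc _ * (ua _ * ua _) = _
        rw [← mul_assoc, uc_ua]
        simp
      · simp [fa, fc, uc_ua])
    (by simp [Fintype.sum_sum_type, fa, fc, sumN])
    (by
      rw [← sum_1]
      simp only [Fintype.sum_sum_type, Fintype.sum_option, fa, fc]
      have : ∑ i : N, (ua (Sum.inl none) * ua (Sum.inr i)) * (uc (Sum.inr i) * uc (Sum.inl none)) =
          (ua (Sum.inl none) : U K (E1 P N) rt) * uc (Sum.inl none) := by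
        calc _ = ∑ i : N, ua (Sum.inl none) * ((ua (Sum.inr i) * uc (Sum.inr i)) * uc (Sum.inl none)) := by
              refine Finset.sum_congr rfl fun i _ => ?_
              noncomm_ring
          _ = ua (Sum.inl none) * ((∑ i : N, ua (Sum.inr i) * uc (Sum.inr i)) * uc (Sum.inl none)) := by
              rw [Finset.sum_mul, Finset.mul_sum]
          _ = _ := by rw [sumN, ub_uc]
      rw [this]
      abel)

/-- the arrow which is split -/
def aa : U K (E2 P N) rt := ∑ i : N, ua (Sum.inl (Sum.inr i)) * uc (Sum.inr i)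
/-- its ghost -/
def cc : U K (E2 P N) rt := ∑ i : N, ua (Sum.inr i) * uc (Sum.inl (Sum.inr i))

theorem uc_aa (e : E2 P N) (he : ∀ i, e ≠ Sum.inl (Sum.inr i)) : (uc e : U K (E2 P N) rt) * aa = 0 := by
  rw [aa, Finset.mul_sum]
  refine Finset.sum_eq_zero fun i _ => ?_
  rw [← mul_assoc, uc_ua, if_neg (he i), zero_mul]

theorem cc_ua (e : E2 P N) (he : ∀ i, e ≠ Sum.inl (Sum.inr i)) : (cc : U K (E2 P N) rt) * ua e = 0 := by
  rw [cc, Finset.sum_mul]
  refine Finset.sum_eq_zero fun i _ => ?_
  rw [mul_assoc, uc_ua, if_neg (Ne.symm (he i)), mul_zero]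

theorem cc_aa : (cc : U K (E2 P N) rt) * aa = ub := by
  rw [← sumN', cc, aa, Finset.sum_mul]
  refine Finset.sum_congr rfl fun i _ => ?_
  rw [Finset.mul_sum, Finset.sum_eq_single i]
  · rw [mul_assoc, ← mul_assoc (uc (Sum.inl (Sum.inr i))), uc_ua, if_pos rfl, ub_uc]
  · intro j _ hj
    rw [mul_assoc, ← mul_assoc (uc (Sum.inl (Sum.inr i))), uc_ua, if_neg, zero_mul, mul_zero]
    intro h
    exact hj (by simpa using h.symm)
  · intro h; exact absurd (Finset.mem_univ i) h

theorem aa_cc : (aa : U K (E2 P N) rt) * cc = ∑ i : N, ua (Sum.inl (Sum.inr i)) * uc (Sum.inl (Sum.inr i)) := by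
  rw [cc, aa, Finset.sum_mul]
  refine Finset.sum_congr rfl fun i _ => ?_
  rw [Finset.mul_sum, Finset.sum_eq_single i]
  · rw [mul_assoc, ← mul_assoc (uc (Sum.inr i)), uc_ua, if_pos rfl, ub_uc]
  · intro j _ hj
    rw [mul_assoc, ← mul_assoc (uc (Sum.inr i)), uc_ua, if_neg, zero_mul, mul_zero]
    intro h
    exact hj (by simpa using h.symm)
  · intro h; exact absurd (Finset.mem_univ i) h

/-- arrows -/
def ga : E1 P N → U K (E2 P N) rt
  | Sum.inl (some p) => ua (Sum.inl (Sum.inl p))
  | Sum.inl none => aa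
  | Sum.inr i => ua (Sum.inr i)

/-- ghost arrows -/
def gc : E1 P N → U K (E2 P N) rt
  | Sum.inl (some p) => uc (Sum.inl (Sum.inl p))
  | Sum.inl none => cc
  | Sum.inr i => uc (Sum.inr i)

/-- the inverse of splitting -/
def unsplit : U K (E1 P N) rt →ₐ[K] U K (E2 P N) rt :=
  Ulift ub ga gc
    (fun e => by
      rcases e with (_ | p) | i
      · change aa * ub = aa
        rw [aa, Finset.sum_mul]
        refine Finset.sum_congr rfl fun i _ => ?_
        rw [mul_assoc, uc_ub rfl]
      · exact ua_ub _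
      · exact ua_ub _)
    (fun e => by
      rcases e with (_ | p) | i
      · change ub * cc = cc
        rw [cc, Finset.mul_sum]
        refine Finset.sum_congr rfl fun i _ => ?_
        rw [← mul_assoc, ub_ua rfl]
      · exact ub_uc _
      · exact ub_uc _)
    (fun e f => by
      rcases e with (_ | p) | i <;> rcases f with (_ | q) | j
      · simp [ga, gc, cc_aa]
      · simp [ga, gc, cc_ua]
      · simp [ga, gc, cc_ua]
      · simp [ga, gc, uc_aa]
      · simp [ga, gc, uc_ua]
      · simp [ga, gc, uc_ua]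
      · simp [ga, gc, uc_aa]
      · simp [ga, gc, uc_ua]
      · simp [ga, gc, uc_ua])
    (by simp [Fintype.sum_sum_type, ga, gc, sumN'])
    (by
      rw [← sum_1]
      simp only [Fintype.sum_sum_type, Fintype.sum_option, ga, gc, aa_cc]
      abel)

/-- **Splitting an arrow into its products with the loops.** -/
theorem iso_split : Nonempty (U K (E2 P N) rt ≃ₐ[K] U K (E1 P N) rt) := by
  have s1 : split (K := K) (P := P) (N := N) ub = ub := Ulift_b ..
  have s2 : ∀ e, split (K := K) (P := P) (N := N) (ua e) = fa e := fun e => Ulift_a ..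
  have s3 : ∀ e, split (K := K) (P := P) (N := N) (uc e) = fc e := fun e => Ulift_c ..
  have t1 : unsplit (K := K) (P := P) (N := N) ub = ub := Ulift_b ..
  have t2 : ∀ e, unsplit (K := K) (P := P) (N := N) (ua e) = ga e := fun e => Ulift_a ..
  have t3 : ∀ e, unsplit (K := K) (P := P) (N := N) (uc e) = gc e := fun e => Ulift_c ..
  refine ⟨AlgEquiv.ofAlgHom split unsplit ?_ ?_⟩
  · refine U_ext ?_ ?_ ?_
    · simp [s1, t1]
    · rintro ((_ | p) | i)
      · simp only [AlgHom.comp_apply, t2, ga, aa, map_sum, map_mul, s2, s3, fa, fc, AlgHom.id_apply]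
        simp only [mul_assoc]
        rw [← Finset.mul_sum, sumN, ua_ub]
      · simp [t2, ga, s2, fa]
      · simp [t2, ga, s2, fa]
    · rintro ((_ | p) | i)
      · simp only [AlgHom.comp_apply, t3, gc, cc, map_sum, map_mul, s2, s3, fa, fc, AlgHom.id_apply]
        simp only [← mul_assoc]
        rw [← Finset.sum_mul, sumN, ub_uc]
      · simp [t3, gc, s3, fc]
      · simp [t3, gc, s3, fc]
  · refine U_ext ?_ ?_ ?_
    · simp [s1, t1]
    · rintro ((p | i) | i)
      · simp [s2, fa, t2, ga]
      · simp only [AlgHom.comp_apply, s2, fa, map_mul, t2, ga, AlgHom.id_apply]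
        rw [aa, Finset.sum_mul, Finset.sum_eq_single i]
        · rw [mul_assoc, uc_ua, if_pos rfl, ua_ub]
        · intro j _ hj
          rw [mul_assoc, uc_ua, if_neg, mul_zero]
          intro h
          exact hj (by simpa using h)
        · intro h; exact absurd (Finset.mem_univ i) h
      · simp [s2, fa, t2, ga]
    · rintro ((p | i) | i)
      · simp [s3, fc, t3, gc]
      · simp only [AlgHom.comp_apply, s3, fc, map_mul, t3, gc, AlgHom.id_apply]
        rw [cc, Finset.mul_sum, Finset.sum_eq_single i]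
        · rw [← mul_assoc, uc_ua, if_pos rfl, ub_uc]
        · intro j _ hj
          rw [← mul_assoc, uc_ua, if_neg, zero_mul]
          intro h
          exact hj (by simpa using h.symm)
        · intro h; exact absurd (Finset.mem_univ i) h
      · simp [s3, fc, t3, gc]

end expand

end Pool.Agent.X329.Leavitt
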