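import Pool.Agent.X329.Leavitt.Trace

/-!
# The unit of the algebra
-/

set_option autoImplicit false

namespace Pool.Agent.X329.Leavitt

open FreeAlgebra

variable {K : Type} [Field K]
variable {P N : Type} [Fintype P] [DecidableEq P] [Fintype N] [DecidableEq N]

section blocks

variable {ι : Type} [DecidableEq ι]

/-- inclusion of a block -/
noncomputable def inj (k : Fin 2) : (ι →₀ K) →ₗ[K] (Fin 2 × ι →₀ K) :=
  Finsupp.lmapDomain K K (Prod.mk k)

/-- projection to a block -/
noncomputable def prj (k : Fin 2) : (Fin 2 × ι →₀ K) →ₗ[K] (ι →₀ K) :=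
  Finsupp.linearCombination K (fun b : Fin 2 × ι => if b.1 = k then Finsupp.single b.2 (1 : K) else 0)

/-- row -/
noncomputable def row (X : Fin 2 → (ι →₀ K) →ₗ[K] (ι →₀ K)) : (Fin 2 × ι →₀ K) →ₗ[K] (ι →₀ K) :=
  ∑ k, X k ∘ₗ prj k

/-- column -/
noncomputable def col (Y : Fin 2 → (ι →₀ K) →ₗ[K] (ι →₀ K)) : (ι →₀ K) →ₗ[K] (Fin 2 × ι →₀ K) :=
  ∑ k, inj k ∘ₗ Y k

omit [DecidableEq ι] in
theorem prj_single (k l : Fin 2) (b : ι) :
    prj k (Finsupp.single (l, b) (1 : K)) = if l = k then Finsupp.single b 1 else 0 := by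
  simp [prj, Finsupp.linearCombination_single]

omit [DecidableEq ι] in
theorem inj_apply (k l : Fin 2) (u : ι →₀ K) (b : ι) :
    inj k u (l, b) = if l = k then u b else 0 := by
  rw [inj, Finsupp.lmapDomain_apply]
  split_ifs with h
  · subst h
    exact Finsupp.mapDomain_apply (Prod.mk_right_injective l) u b
  · rw [Finsupp.mapDomain_notin_range]
    rintro ⟨c, hc⟩
    exact h (congrArg Prod.fst hc).symm

omit [DecidableEq ι] in
theorem prj_inj (k l : Fin 2) : (prj k ∘ₗ inj l : (ι →₀ K) →ₗ[K] (ι →₀ K)) =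
    if l = k then LinearMap.id else 0 := by
  apply Finsupp.lhom_ext'
  intro b
  apply LinearMap.ext_ring
  simp only [LinearMap.comp_apply, inj, Finsupp.lsingle_apply, Finsupp.lmapDomain_apply,
    Finsupp.mapDomain_single, prj_single]
  split_ifs <;> simp

omit [DecidableEq ι] in
theorem sum_inj_prj : (∑ k, inj k ∘ₗ prj k : (Fin 2 × ι →₀ K) →ₗ[K] (Fin 2 × ι →₀ K)) =
    LinearMap.id := by
  apply Finsupp.lhom_ext'
  rintro ⟨l, b⟩
  apply LinearMap.ext_ring
  simp only [LinearMap.comp_apply, Finsupp.lsingle_apply, LinearMap.sum_apply, prj_single,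
    LinearMap.id_apply]
  rw [Finset.sum_eq_single l]
  · rw [if_pos rfl, inj, Finsupp.lmapDomain_apply, Finsupp.mapDomain_single]
  · intro k _ hk
    rw [if_neg (Ne.symm hk), map_zero]
  · intro h; exact absurd (Finset.mem_univ l) h

omit [DecidableEq ι] in
theorem row_col (X Y : Fin 2 → (ι →₀ K) →ₗ[K] (ι →₀ K)) :
    row X ∘ₗ col Y = ∑ k, X k ∘ₗ Y k := by
  refine LinearMap.ext fun v => ?_
  simp only [row, col, LinearMap.comp_apply, LinearMap.sum_apply, map_sum]
  refine Finset.sum_congr rfl fun k _ => ?_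
  rw [Finset.sum_eq_single k]
  · have := LinearMap.congr_fun (prj_inj (K := K) (ι := ι) k k) (Y k v)
    rw [if_pos rfl] at this
    change X k ((prj k ∘ₗ inj k) (Y k v)) = _
    rw [this]
    rfl
  · intro l _ hl
    have := LinearMap.congr_fun (prj_inj (K := K) (ι := ι) l k) (Y k v)
    rw [if_neg (Ne.symm hl)] at this
    change X l ((prj l ∘ₗ inj k) (Y k v)) = _
    rw [this]
    simp
  · intro h; exact absurd (Finset.mem_univ k) h

omit [DecidableEq ι] in
theorem col_row (X Y : Fin 2 → (ι →₀ K) →ₗ[K] (ι →₀ K)) (F : Fin 2 → Fin 2 → (ι →₀ K) →ₗ[K] (ι →₀ K))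
    (hF : ∀ k l, Y k ∘ₗ X l = (if k = l then LinearMap.id else 0) + F k l) :
    col Y ∘ₗ row X = LinearMap.id + ∑ k, ∑ l, inj k ∘ₗ F k l ∘ₗ prj l := by
  have hF' : ∀ k l v, Y k (X l v) = (if k = l then v else 0) + F k l v := by
    intro k l v
    have := LinearMap.congr_fun (hF k l) v
    rw [LinearMap.comp_apply, LinearMap.add_apply] at this
    rw [this]
    split_ifs <;> simp
  have h0 := sum_inj_prj (K := K) (ι := ι)
  refine LinearMap.ext fun v => ?_
  have h1 : v = ∑ k, inj k (prj k v) := by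
    conv_lhs => rw [← LinearMap.id_apply (R := K) v, ← h0]
    simp [LinearMap.sum_apply]
  have hkey : ∀ k, ∑ l, inj k (Y k (X l (prj l v))) =
      inj k (prj k v) + ∑ l, inj k (F k l (prj l v)) := by
    intro k
    have : ∀ l, inj k (Y k (X l (prj l v))) =
        inj k (if k = l then prj l v else 0) + inj k (F k l (prj l v)) := by
      intro l
      rw [hF', map_add]
    rw [Finset.sum_congr rfl fun l _ => this l, Finset.sum_add_distrib]
    congr 1
    rw [Finset.sum_eq_single k]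
    · rw [if_pos rfl]
    · intro l _ hl
      rw [if_neg (Ne.symm hl), map_zero]
    · intro h; exact absurd (Finset.mem_univ k) h
  calc (col Y ∘ₗ row X) v = ∑ k, ∑ l, inj k (Y k (X l (prj l v))) := by
        simp only [row, col, LinearMap.comp_apply, LinearMap.sum_apply, map_sum]
        first | rfl | exact Finset.sum_comm
    _ = ∑ k, (inj k (prj k v) + ∑ l, inj k (F k l (prj l v))) :=
        Finset.sum_congr rfl fun k _ => hkey k
    _ = v + ∑ k, ∑ l, inj k (F k l (prj l v)) := by rw [Finset.sum_add_distrib, ← h1]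
    _ = _ := by
        simp only [LinearMap.comp_apply, LinearMap.sum_apply, LinearMap.add_apply,
          LinearMap.id_apply]

theorem rtr_blocks (F : Fin 2 → Fin 2 → (ι →₀ K) →ₗ[K] (ι →₀ K)) (hF : ∀ k l, FR (F k l)) :
    FR (∑ k, ∑ l, inj k ∘ₗ F k l ∘ₗ prj l : (Fin 2 × ι →₀ K) →ₗ[K] (Fin 2 × ι →₀ K)) ∧
    rtr (∑ k, ∑ l, inj k ∘ₗ F k l ∘ₗ prj l) = rtr (F 0 0) + rtr (F 1 1) := by
  have h1 : FR (∑ k, ∑ l, inj k ∘ₗ F k l ∘ₗ prj l : (Fin 2 × ι →₀ K) →ₗ[K] (Fin 2 × ι →₀ K)) := by
    rw [Fin.sum_univ_two, Fin.sum_univ_two, Fin.sum_univ_two]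
    have h : ∀ k l, FR (inj k ∘ₗ F k l ∘ₗ prj l) := fun k l =>
      FR.comp_left (FR.comp_right (hF k l) _) _
    exact FR.add (FR.add (h 0 0) (h 0 1)) (FR.add (h 1 0) (h 1 1))
  refine ⟨h1, ?_⟩
  obtain ⟨S, hS⟩ := supp_bound _ h1
  obtain ⟨S0, hS0⟩ := supp_bound _ (hF 0 0)
  obtain ⟨S1, hS1⟩ := supp_bound _ (hF 1 1)
  set A : Finset ι := S.image Prod.snd ∪ S0 ∪ S1 with hA
  rw [← diag_sum _ h1 (Finset.univ ×ˢ A), ← diag_sum _ (hF 0 0) A, ← diag_sum _ (hF 1 1) A,
    Finset.sum_product, Fin.sum_univ_two]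
  · have key : ∀ (k : Fin 2) (b : ι), (∑ k, ∑ l, inj k ∘ₗ F k l ∘ₗ prj l :
        (Fin 2 × ι →₀ K) →ₗ[K] (Fin 2 × ι →₀ K)) (Finsupp.single (k, b) 1) (k, b) =
        F k k (Finsupp.single b 1) b := by
      intro k b
      simp only [LinearMap.sum_apply, LinearMap.comp_apply, prj_single, Finsupp.finset_sum_apply,
        inj_apply]
      rw [Finset.sum_eq_single k]
      · rw [Finset.sum_eq_single k]
        · rw [if_pos rfl, if_pos rfl]
        · intro l _ hl
          rw [if_pos rfl, if_neg (Ne.symm hl), map_zero]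
          rfl
        · intro h; exact absurd (Finset.mem_univ k) h
      · intro l _ hl
        refine Finset.sum_eq_zero fun j _ => ?_
        rw [if_neg (Ne.symm hl)]
      · intro h; exact absurd (Finset.mem_univ k) h
    congr 1
    · exact Finset.sum_congr rfl fun b _ => key 0 b
    · exact Finset.sum_congr rfl fun b _ => key 1 b
  · intro x b hb
    exact Finset.mem_union_right _ (hS1 x hb)
  · intro x b hb
    exact Finset.mem_union_left _ (Finset.mem_union_right _ (hS0 x hb))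
  · intro x b hb
    refine Finset.mem_product.2 ⟨Finset.mem_univ _, ?_⟩
    exact Finset.mem_union_left _ (Finset.mem_union_left _
      (Finset.mem_image.2 ⟨b, hS x hb, rfl⟩))

end blocks

/-- **The obstruction.** If the unit of the algebra is equivalent to two copies of itself, then `1 - n`
divides the number of copies of the base vertex in the unit. -/
theorem no_two [CharZero K] (x y : Fin 2 → U K (P ⊕ N) rt)
    (h1 : ∀ k l, y k * x l = if k = l then 1 else 0) (h2 : ∑ k, x k * y k = 1) :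
    ∃ z : ℤ, (Fintype.card (Option P) : ℤ) = (1 - (Fintype.card N : ℤ)) * z := by
  have hsur := RingQuot.mkAlgHom_surjective K (UR K (P ⊕ N) rt)
  choose xt hxt using fun k => hsur (x k)
  choose yt hyt using fun k => hsur (y k)
  let X : Fin 2 → Vs K P N →ₗ[K] Vs K P N := fun k => rho (xt k)
  let Y : Fin 2 → Vs K P N →ₗ[K] Vs K P N := fun k => rho (yt k)
  let F : Fin 2 → Fin 2 → Vs K P N →ₗ[K] Vs K P N := fun k l =>
    Y k ∘ₗ X l - (if k = l then LinearMap.id else 0)
  let G : Vs K P N →ₗ[K] Vs K P N := ∑ k, X k ∘ₗ Y k - LinearMap.id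
  have hF : ∀ k l, FR (F k l) := by
    intro k l
    have h : RingQuot.mkAlgHom K (UR K (P ⊕ N) rt) (yt k * xt l) =
        RingQuot.mkAlgHom K (UR K (P ⊕ N) rt) (if k = l then 1 else 0) := by
      rw [map_mul, hxt, hyt, h1]
      split_ifs <;> simp
    have h' := rho_congr h
    rw [map_mul] at h'
    have e : (rho (if k = l then (1 : FreeAlgebra K (UG (P ⊕ N))) else 0) :
        Module.End K (Vs K P N)) = if k = l then LinearMap.id else 0 := by
      split_ifs
      · rw [map_one]; rfl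
      · rw [map_zero]
    rw [e] at h'
    exact h'
  have hG : FR G := by
    have h : RingQuot.mkAlgHom K (UR K (P ⊕ N) rt) (∑ k, xt k * yt k) =
        RingQuot.mkAlgHom K (UR K (P ⊕ N) rt) 1 := by
      rw [map_sum, map_one, ← h2]
      refine Finset.sum_congr rfl fun k _ => ?_
      rw [map_mul, hxt, hyt]
    have h' := rho_congr h
    rw [map_one, map_sum] at h'
    simp only [map_mul] at h'
    exact h'
  have e1 : col Y ∘ₗ row X = LinearMap.id + ∑ k, ∑ l, inj k ∘ₗ F k l ∘ₗ prj l := by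
    refine col_row X Y F fun k l => ?_
    simp only [F]
    abel
  have e2 : row X ∘ₗ col Y = LinearMap.id + G := by
    rw [row_col]
    simp only [G]
    abel
  obtain ⟨f1, f2⟩ := rtr_blocks F hF
  obtain ⟨z, hz⟩ := index_int (row X) (col Y) _ G e1 e2 f1 hG
  rw [f2] at hz
  -- the regularised traces
  have hc : ∀ k, ∃ c, Tau (X k ∘ₗ Y k) c := fun k =>
    (Good.mul (good_rho (xt k)) (good_rho (yt k))).tau
  choose c hc using hc
  have hc' : ∀ k, Tau (Y k ∘ₗ X k) (c k) := fun k =>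
    tau_comm (xt k) (Y k) (good_rho (yt k)) (c k) (hc k)
  have hk : ∀ k, c k = Fintype.card (Option P) + (1 - (Fintype.card N : K)) * rtr (F k k) := by
    intro k
    have h3 : Y k ∘ₗ X k = LinearMap.id + F k k := by
      simp only [F, if_true]
      abel
    have h4 := hc' k
    rw [h3] at h4
    exact h4.unique (tau_one.add (tau_fin (hF k k)))
  have hs : c 0 + c 1 = Fintype.card (Option P) + (1 - (Fintype.card N : K)) * rtr G := by
    have h3 : X 0 ∘ₗ Y 0 + X 1 ∘ₗ Y 1 = LinearMap.id + G := by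
      simp only [G, Fin.sum_univ_two]
      abel
    have h4 := (hc 0).add (hc 1)
    rw [h3] at h4
    exact h4.unique (tau_one.add (tau_fin hG))
  rw [hk 0, hk 1] at hs
  refine ⟨z, ?_⟩
  have h5 : ((Fintype.card (Option P) : ℤ) : K) = ((1 - (Fintype.card N : ℤ)) * z : ℤ) := by
    push_cast
    rw [← hz]
    linear_combination hs
  exact_mod_cast h5

theorem ub_ua_inl (p : P) : (ub : U K (P ⊕ N) rt) * ua (Sum.inl p) = 0 := by
  rw [← sum_l, Finset.sum_mul]
  refine Finset.sum_eq_zero fun e _ => ?_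
  rcases e with q | i
  · simp
  · simp [mul_assoc, uc_ua]

theorem uc_ub_inl (p : P) : (uc (Sum.inl p) : U K (P ⊕ N) rt) * ub = 0 := by
  rw [← sum_l, Finset.mul_sum]
  refine Finset.sum_eq_zero fun e _ => ?_
  rcases e with q | i
  · simp
  · simp [← mul_assoc, uc_ua]

/-- columns -/
def ta : Option P → U K (P ⊕ N) rt
  | none => ub
  | some p => ua (Sum.inl p)

/-- rows -/
def tc : Option P → U K (P ⊕ N) rt
  | none => ub
  | some p => uc (Sum.inl p)

theorem tc_ta [Nonempty N] (o o' : Option P) :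
    (tc o : U K (P ⊕ N) rt) * ta o' = if o = o' then ub else 0 := by
  rcases o with _ | p <;> rcases o' with _ | q
  · simp [tc, ta, ub_ub]
  · simp [tc, ta, ub_ua_inl]
  · simp [tc, ta, uc_ub_inl]
  · simp [tc, ta, uc_ua]

theorem ta_ub [Nonempty N] (o : Option P) : (ta o : U K (P ⊕ N) rt) * ub = ta o := by
  rcases o with _ | p
  · exact ub_ub
  · exact ua_ub _

theorem sum_ta_tc [Nonempty N] : ∑ o : Option P, (ta o : U K (P ⊕ N) rt) * tc o = 1 := by
  rw [Fintype.sum_option, ← sum_1, Fintype.sum_sum_type]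
  simp only [ta, tc, ub_ub]
  rw [add_comm]
  congr 1
  rw [← sum_l, Fintype.sum_sum_type]
  simp

/-- **Two copies of the unit.** -/
theorem two_of [Nonempty N] (θ : Fin 2 × Option P ≃ P ⊕ N) :
    ∃ x y : Fin 2 → U K (P ⊕ N) rt, (∀ k l, y k * x l = if k = l then 1 else 0) ∧
      ∑ k, x k * y k = 1 := by
  refine ⟨fun k => ∑ o, ua (θ (k, o)) * tc o, fun k => ∑ o, ta o * uc (θ (k, o)), ?_, ?_⟩
  · intro k l
    rw [Finset.sum_mul]
    have : ∀ o, (ta o * uc (θ (k, o)) : U K (P ⊕ N) rt) * ∑ o', ua (θ (l, o')) * tc o' =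
        if k = l then ta o * tc o else 0 := by
      intro o
      rw [Finset.mul_sum, Finset.sum_eq_single o]
      · rw [mul_assoc, ← mul_assoc (uc _), uc_ua]
        simp only [EmbeddingLike.apply_eq_iff_eq, Prod.mk.injEq, and_true]
        split_ifs
        · rw [← mul_assoc, ta_ub]
        · simp
      · intro o' _ ho
        rw [mul_assoc, ← mul_assoc (uc _), uc_ua, if_neg, zero_mul, mul_zero]
        intro h
        have := θ.injective h
        simp only [Prod.mk.injEq] at this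
        exact ho this.2.symm
      · intro h; exact absurd (Finset.mem_univ o) h
    rw [Finset.sum_congr rfl fun o _ => this o]
    split_ifs
    · exact sum_ta_tc
    · simp
  · have : ∀ k, (∑ o, ua (θ (k, o)) * tc o : U K (P ⊕ N) rt) * ∑ o, ta o * uc (θ (k, o)) =
        ∑ o, ua (θ (k, o)) * uc (θ (k, o)) := by
      intro k
      rw [Finset.sum_mul]
      refine Finset.sum_congr rfl fun o _ => ?_
      rw [Finset.mul_sum, Finset.sum_eq_single o]
      · rw [mul_assoc, ← mul_assoc (tc _), tc_ta, if_pos rfl, ub_uc]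
      · intro o' _ ho
        rw [mul_assoc, ← mul_assoc (tc _), tc_ta, if_neg (Ne.symm ho), zero_mul, mul_zero]
      · intro h; exact absurd (Finset.mem_univ o) h
    rw [Finset.sum_congr rfl fun k _ => this k, ← sum_1 (K := K) (l := rt), ← Equiv.sum_comp θ,
      Fintype.sum_prod_type]

/-! ### The quivers -/

/-- The quiver with two vertices, `p` arrows from the first vertex to the second one and `n` loops at the
second vertex. -/
def Qpn (p n : ℕ) : FQ where
  V := Bool
  E := Fin p ⊕ Fin n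
  s := Sum.isRight
  r := fun _ => true

theorem iso_Q (p n : ℕ) : Nonempty (LPA K (Qpn (p + 1) (n + 1)) ≃ₐ[K]
    U K (Fin (p + 1) ⊕ Fin (n + 1)) rt) := by
  obtain ⟨f⟩ := iso_U (K := K) (Q := Qpn (p + 1) (n + 1)) true (fun _ => rfl) (by
    intro v
    cases v with
    | false => exact ⟨Sum.inl 0, rfl⟩
    | true => exact ⟨Sum.inr 0, rfl⟩)
  obtain ⟨g⟩ := iso_reix (K := K) (E := (Qpn (p + 1) (n + 1)).E) (E' := Fin (p + 1) ⊕ Fin (n + 1))
    (l := lb (Qpn (p + 1) (n + 1)) true) (l' := rt) (Equiv.refl _) (by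
      intro e
      rcases e with a | b <;> rfl)
  exact ⟨f.trans g⟩

theorem iso_sq (p n : ℕ) : Nonempty (LPA K (Qpn (p + 1) (n + 1)).sq ≃ₐ[K]
    U K (Qpn (p + 1) (n + 1)).sq.E (lb (Qpn (p + 1) (n + 1)).sq (true, true))) := by
  refine iso_U _ (fun _ => rfl) ?_
  rintro ⟨v, w⟩
  cases v <;> cases w
  · exact ⟨(Sum.inl 0, Sum.inl 0), rfl⟩
  · exact ⟨(Sum.inl 0, Sum.inr 0), rfl⟩
  · exact ⟨(Sum.inr 0, Sum.inl 0), rfl⟩
  · exact ⟨(Sum.inr 0, Sum.inr 0), rfl⟩

theorem card_loops (p n : ℕ) : Fintype.card {e : (Qpn p n).sq.E //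
    lb (Qpn p n).sq (true, true) e = true} = n * n := by
  have e : {e : (Qpn p n).sq.E // lb (Qpn p n).sq (true, true) e = true} ≃ Fin n × Fin n :=
    { toFun := fun e => match e with
        | ⟨(Sum.inr a, Sum.inr b), _⟩ => (a, b)
        | ⟨(Sum.inl a, _), h⟩ => by
            simp [lb, FQ.sq, Qpn] at h
        | ⟨(Sum.inr _, Sum.inl a), h⟩ => by
            simp [lb, FQ.sq, Qpn] at h
      invFun := fun ab => ⟨(Sum.inr ab.1, Sum.inr ab.2), by simp [lb, FQ.sq, Qpn]⟩
      left_inv := by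
        rintro ⟨⟨a | a, b | b⟩, h⟩
        · simp [lb, FQ.sq, Qpn] at h
        · simp [lb, FQ.sq, Qpn] at h
        · simp [lb, FQ.sq, Qpn] at h
        · rfl
      right_inv := fun _ => rfl }
  rw [Fintype.card_congr e, Fintype.card_prod, Fintype.card_fin]

theorem card_arrows (p n : ℕ) : Fintype.card (Qpn p n).sq.E = (p + n) * (p + n) := by
  change Fintype.card ((Fin p ⊕ Fin n) × (Fin p ⊕ Fin n)) = _
  rw [Fintype.card_prod, Fintype.card_sum, Fintype.card_fin, Fintype.card_fin]

theorem card_rt (A : Type) [Fintype A] [DecidableEq A] (n : ℕ) :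
    Fintype.card {e : A ⊕ Fin n // Sum.isRight e = true} = n := by
  have e : {e : A ⊕ Fin n // Sum.isRight e = true} ≃ Fin n :=
    { toFun := fun e => match e with
        | ⟨Sum.inr a, _⟩ => a
        | ⟨Sum.inl _, h⟩ => by simp at h
      invFun := fun a => ⟨Sum.inr a, rfl⟩
      left_inv := by
        rintro ⟨a | a, h⟩
        · simp at h
        · rfl
      right_inv := fun _ => rfl }
  rw [Fintype.card_congr e, Fintype.card_fin]

/-- The Kronecker squares have isomorphic Leavitt path algebras. -/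
theorem squares_iso : Nonempty (LPA K (Qpn 5 10).sq ≃ₐ[K] LPA K (Qpn 8 10).sq) := by
  obtain ⟨f1⟩ := iso_sq (K := K) 4 9
  obtain ⟨f2⟩ := iso_sq (K := K) 7 9
  obtain ⟨g1⟩ := iso_card (K := K) (E := (Qpn 5 10).sq.E) (E' := E1 (Fin 124) (Fin 100))
    (l := lb (Qpn 5 10).sq (true, true)) (l' := rt)
    ((card_loops 5 10).trans (card_rt _ 100).symm) (by
      rw [card_arrows]; simp)
  obtain ⟨g2⟩ := iso_card (K := K) (E := (Qpn 8 10).sq.E) (E' := E2 (Fin 124) (Fin 100))
    (l := lb (Qpn 8 10).sq (true, true)) (l' := rt)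
    ((card_loops 8 10).trans (card_rt _ 100).symm) (by
      rw [card_arrows]; simp)
  obtain ⟨h⟩ := iso_split (K := K) (P := Fin 124) (N := Fin 100)
  exact ⟨(f1.trans g1).trans (h.symm.trans (g2.symm.trans f2.symm))⟩

/-- The Leavitt path algebras are not isomorphic. -/
theorem not_iso [CharZero K] : ¬ Nonempty (LPA K (Qpn 5 10) ≃ₐ[K] LPA K (Qpn 8 10)) := by
  rintro ⟨f⟩
  obtain ⟨f1⟩ := iso_Q (K := K) 4 9
  obtain ⟨f2⟩ := iso_Q (K := K) 7 9
  obtain ⟨θ⟩ : Nonempty (Fin 2 × Option (Fin 8) ≃ Fin 8 ⊕ Fin 10) := by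
    rw [← Fintype.card_eq]
    simp
  obtain ⟨x, y, h1, h2⟩ := two_of (K := K) (P := Fin 8) (N := Fin 10) θ
  let g : U K (Fin 8 ⊕ Fin 10) rt ≃ₐ[K] U K (Fin 5 ⊕ Fin 10) rt :=
    (f1.symm.trans (f.trans f2)).symm
  obtain ⟨z, hz⟩ := no_two (K := K) (P := Fin 5) (N := Fin 10) (fun k => g (x k)) (fun k => g (y k))
    (by
      intro k l
      rw [← map_mul, h1]
      split_ifs <;> simp)
    (by
      simp only [← map_mul]
      rw [← map_sum, h2, map_one])
  simp at hz
  omega

end Pool.Agent.X329.Leavitt
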