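import Mathlib

/-!
# The trace of an endomorphism of finite rank; integrality of the index
-/

set_option autoImplicit false

namespace Pool.Agent.X329.Leavitt

variable {K : Type} [Field K]

section

variable {V W : Type} [AddCommGroup V] [Module K V] [AddCommGroup W] [Module K W]

/-- the trace of an endomorphism on its range -/
noncomputable def rtr (T : V →ₗ[K] V) : K :=
  LinearMap.trace K (LinearMap.range T) (T.restrict (fun x _ => LinearMap.mem_range_self T x))

theorem index_int (X : W →ₗ[K] V) (Y : V →ₗ[K] W) (F : W →ₗ[K] W) (G : V →ₗ[K] V)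
    (hF : Y ∘ₗ X = LinearMap.id + F) (hG : X ∘ₗ Y = LinearMap.id + G)
    (fF : Module.Finite K (LinearMap.range F)) (fG : Module.Finite K (LinearMap.range G)) :
    ∃ z : ℤ, rtr G - rtr F = z := by
  have hYX : ∀ w, Y (X w) = w + F w := fun w => LinearMap.congr_fun hF w
  have hXY : ∀ v, X (Y v) = v + G v := fun v => LinearMap.congr_fun hG v
  have h1 : ∀ w, X (F w) = G (X w) := by
    intro w
    have a1 : X (Y (X w)) = X w + X (F w) := by rw [hYX, map_add]
    rw [hXY] at a1
    exact (add_left_cancel a1).symm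
  have h2 : ∀ v, Y (G v) = F (Y v) := by
    intro v
    have a1 : Y (X (Y v)) = Y v + Y (G v) := by rw [hXY, map_add]
    rw [hYX] at a1
    exact (add_left_cancel a1).symm
  have m1 : ∀ x ∈ LinearMap.range F, X x ∈ LinearMap.range G := by
    rintro _ ⟨w, rfl⟩
    exact ⟨X w, (h1 w).symm⟩
  have m2 : ∀ x ∈ LinearMap.range G, Y x ∈ LinearMap.range F := by
    rintro _ ⟨v, rfl⟩
    exact ⟨Y v, (h2 v).symm⟩
  have e1 : (X.restrict m1) ∘ₗ (Y.restrict m2) =
      LinearMap.id + G.restrict (fun x _ => LinearMap.mem_range_self G x) := by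
    ext ⟨v, hv⟩
    simp [LinearMap.restrict_apply, hXY]
  have e2 : (Y.restrict m2) ∘ₗ (X.restrict m1) =
      LinearMap.id + F.restrict (fun x _ => LinearMap.mem_range_self F x) := by
    ext ⟨v, hv⟩
    simp [LinearMap.restrict_apply, hYX]
  have t1 := congrArg (LinearMap.trace K (LinearMap.range G)) e1
  have t2 := congrArg (LinearMap.trace K (LinearMap.range F)) e2
  rw [map_add, LinearMap.trace_id] at t1 t2
  have t3 := LinearMap.trace_comp_comm' (X.restrict m1) (Y.restrict m2)
  rw [t1, t2] at t3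
  refine ⟨(Module.finrank K (LinearMap.range F) : ℤ) - Module.finrank K (LinearMap.range G), ?_⟩
  push_cast
  unfold rtr
  linear_combination -t3

theorem tr_range (T : V →ₗ[K] V) (fT : Module.Finite K (LinearMap.range T))
    [Module.Finite K W] (α : LinearMap.range T →ₗ[K] W) (β : W →ₗ[K] LinearMap.range T)
    (h : β ∘ₗ α = T.restrict (fun x _ => LinearMap.mem_range_self T x)) :
    LinearMap.trace K W (α ∘ₗ β) = rtr T := by
  rw [LinearMap.trace_comp_comm' β α, h, rtr]

end

section diag

variable {ι : Type}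

theorem supp_bound (T : (ι →₀ K) →ₗ[K] (ι →₀ K)) (fT : Module.Finite K (LinearMap.range T)) :
    ∃ S0 : Finset ι, ∀ x, (T x).support ⊆ S0 := by
  classical
  obtain ⟨s, hs⟩ := Module.Finite.iff_fg.1 fT
  refine ⟨s.biUnion fun x => x.support, fun x => ?_⟩
  have h1 : LinearMap.range T ≤ Finsupp.supported K K (↑(s.biUnion fun x => x.support) : Set ι) := by
    rw [← hs, Submodule.span_le]
    intro y hy
    rw [SetLike.mem_coe, Finsupp.mem_supported]
    intro i hi
    exact Finset.mem_coe.2 (Finset.mem_biUnion.2 ⟨y, hy, hi⟩)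
  have h2 := h1 (LinearMap.mem_range_self T x)
  rw [Finsupp.mem_supported] at h2
  exact_mod_cast h2

theorem diag_sum (T : (ι →₀ K) →ₗ[K] (ι →₀ K)) (fT : Module.Finite K (LinearMap.range T))
    (S : Finset ι) (hS : ∀ x, (T x).support ⊆ S) :
    ∑ b ∈ S, T (Finsupp.single b 1) b = rtr T := by
  classical
  let α : LinearMap.range T →ₗ[K] (S → K) :=
    { toFun := fun x b => x.1 b
      map_add' := fun x y => by ext b; simp
      map_smul' := fun c x => by ext b; simp }
  let γ : (S → K) →ₗ[K] (ι →₀ K) :=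
    ∑ b : S, (Finsupp.lsingle (b : ι) : K →ₗ[K] (ι →₀ K)) ∘ₗ LinearMap.proj b
  have hγ : ∀ u, γ u = ∑ b : S, Finsupp.single (b : ι) (u b) := by
    intro u
    simp [γ]
  let β : (S → K) →ₗ[K] LinearMap.range T := T.rangeRestrict ∘ₗ γ
  have h1 : β ∘ₗ α = T.restrict (fun x _ => LinearMap.mem_range_self T x) := by
    ext ⟨x, hx⟩ : 1
    apply Subtype.ext
    change T (γ (fun b => x b)) = T x
    congr 1
    rw [hγ]
    obtain ⟨y, rfl⟩ := hx
    rw [Finset.sum_coe_sort S (fun b => Finsupp.single b ((T y) b))]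
    conv_rhs => rw [← Finsupp.sum_single (T y)]
    rw [Finsupp.sum_of_support_subset _ (hS y) _ (fun i _ => Finsupp.single_zero i)]
  have h2 : LinearMap.trace K (S → K) (α ∘ₗ β) = ∑ b ∈ S, T (Finsupp.single b 1) b := by
    rw [LinearMap.trace_eq_matrix_trace K (Pi.basisFun K S), Matrix.trace, ← Finset.sum_coe_sort S]
    refine Finset.sum_congr rfl fun b _ => ?_
    rw [Matrix.diag_apply, LinearMap.toMatrix_apply]
    simp only [Pi.basisFun_apply, Pi.basisFun_repr]
    change T (γ (Pi.single b 1)) b = _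
    congr 2
    rw [hγ, Finset.sum_eq_single b]
    · simp
    · intro c _ hc
      simp [hc]
    · intro h; exact absurd (Finset.mem_univ b) h
  rw [← h2]
  exact tr_range T fT α β h1

end diag

end Pool.Agent.X329.Leavitt
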