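import Pool.Agent.X329.Leavitt.Words

/-!
# The representation modulo operators of finite rank
-/

set_option autoImplicit false

namespace Pool.Agent.X329.Leavitt

open FreeAlgebra

variable {K : Type} [Field K]

section finrank

variable {V W X : Type} [AddCommGroup V] [Module K V] [AddCommGroup W] [Module K W]
  [AddCommGroup X] [Module K X]

/-- finite rank -/
def FR (T : V →ₗ[K] W) : Prop := Module.Finite K (LinearMap.range T)

theorem FR.zero : FR (0 : V →ₗ[K] W) := by
  rw [FR, LinearMap.range_zero]
  infer_instance

theorem FR.add {S T : V →ₗ[K] W} (hS : FR S) (hT : FR T) : FR (S + T) := by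
  have := hS
  have := hT
  have h1 : Module.Finite K ↥(LinearMap.range S ⊔ LinearMap.range T) := by
    unfold FR at *
    exact Submodule.finite_sup _ _
  have h2 : LinearMap.range (S + T) ≤ LinearMap.range S ⊔ LinearMap.range T := by
    rintro _ ⟨x, rfl⟩
    exact Submodule.add_mem_sup (LinearMap.mem_range_self S x) (LinearMap.mem_range_self T x)
  exact Submodule.finiteDimensional_of_le h2

theorem FR.neg {S : V →ₗ[K] W} (hS : FR S) : FR (-S) := by
  rw [FR, LinearMap.range_neg]
  exact hS

theorem FR.sub {S T : V →ₗ[K] W} (hS : FR S) (hT : FR T) : FR (S - T) := by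
  rw [sub_eq_add_neg]
  exact hS.add hT.neg

theorem FR.of_eq {S T : V →ₗ[K] W} (h : S = T) : FR (S - T) := by
  rw [h, sub_self]
  exact FR.zero

theorem FR.comp_left {T : V →ₗ[K] W} (hT : FR T) (S : W →ₗ[K] X) : FR (S ∘ₗ T) := by
  have h := hT
  rw [FR, LinearMap.range_comp]
  unfold FR at h
  exact Module.Finite.map _ _

theorem FR.comp_right {S : W →ₗ[K] X} (hS : FR S) (T : V →ₗ[K] W) : FR (S ∘ₗ T) := by
  have h := hS
  unfold FR at h
  exact Submodule.finiteDimensional_of_le (LinearMap.range_comp_le_range T S)

/-- the congruence modulo operators of finite rank -/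
def frc (K V : Type) [Field K] [AddCommGroup V] [Module K V] : RingCon (Module.End K V) where
  r S T := FR (S - T)
  iseqv :=
    { refl := fun S => by rw [sub_self]; exact FR.zero
      symm := fun {S T} h => by rw [← neg_sub]; exact FR.neg h
      trans := fun {S T R} h h' => by rw [← sub_add_sub_cancel]; exact FR.add h h' }
  add' := fun {a b c d} h h' => by
    have : a + c - (b + d) = (a - b) + (c - d) := by abel
    rw [this]
    exact FR.add h h'
  mul' := fun {a b c d} h h' => by
    have : a * c - b * d = (a - b) * c + b * (c - d) := by noncomm_ring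
    rw [this]
    exact FR.add (FR.comp_right h c) (FR.comp_left h' b)

end finrank

variable {P N : Type} [Fintype P] [DecidableEq P] [Fintype N] [DecidableEq N]

/-- base vertex -/
noncomputable def oB : Module.End K (Vs K P N) :=
  Finsupp.linearCombination K (fun b : Bs P N => match b with
    | (none, w) => (bv (none, w) : Vs K P N)
    | (some _, _) => 0)

/-- arrows which are not loops -/
noncomputable def oAp (p : P) : Module.End K (Vs K P N) :=
  Finsupp.linearCombination K (fun b : Bs P N => match b with
    | (none, w) => (bv (some p, w) : Vs K P N)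
    | (some _, _) => 0)

/-- loops -/
noncomputable def oAi (i : N) : Module.End K (Vs K P N) :=
  Finsupp.linearCombination K (fun b : Bs P N => match b with
    | (none, w) => (bv (none, i :: w) : Vs K P N)
    | (some _, _) => 0)

/-- ghost arrows -/
noncomputable def oCp (p : P) : Module.End K (Vs K P N) :=
  Finsupp.linearCombination K (fun b : Bs P N => match b with
    | (none, _) => 0
    | (some q, w) => if p = q then (bv (none, w) : Vs K P N) else 0)

/-- ghost loops -/
noncomputable def oCi (i : N) : Module.End K (Vs K P N) :=
  Finsupp.linearCombination K (fun b : Bs P N => match b with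
    | (none, []) => 0
    | (none, j :: w) => if i = j then (bv (none, w) : Vs K P N) else 0
    | (some _, _) => 0)

@[simp] theorem oB_none (w : List N) : oB (bv (none, w) : Vs K P N) = bv (none, w) := by
  simp [oB, Finsupp.linearCombination_single]
@[simp] theorem oB_some (q : P) (w : List N) : oB (bv (some q, w) : Vs K P N) = 0 := by
  simp [oB, Finsupp.linearCombination_single]
@[simp] theorem oAp_none (p : P) (w : List N) :
    oAp p (bv (none, w) : Vs K P N) = bv (some p, w) := by
  simp [oAp, Finsupp.linearCombination_single]
@[simp] theorem oAp_some (p q : P) (w : List N) : oAp p (bv (some q, w) : Vs K P N) = 0 := by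
  simp [oAp, Finsupp.linearCombination_single]
@[simp] theorem oAi_none (i : N) (w : List N) :
    oAi i (bv (none, w) : Vs K P N) = bv (none, i :: w) := by
  simp [oAi, Finsupp.linearCombination_single]
@[simp] theorem oAi_some (i : N) (q : P) (w : List N) : oAi i (bv (some q, w) : Vs K P N) = 0 := by
  simp [oAi, Finsupp.linearCombination_single]
@[simp] theorem oCp_none (p : P) (w : List N) : oCp p (bv (none, w) : Vs K P N) = 0 := by
  simp [oCp, Finsupp.linearCombination_single]
@[simp] theorem oCp_some (p q : P) (w : List N) :
    oCp p (bv (some q, w) : Vs K P N) = if p = q then bv (none, w) else 0 := by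
  simp [oCp, Finsupp.linearCombination_single]
@[simp] theorem oCi_nil (i : N) : oCi i (bv (none, []) : Vs K P N) = 0 := by
  simp [oCi, Finsupp.linearCombination_single]
@[simp] theorem oCi_cons (i j : N) (w : List N) :
    oCi i (bv (none, j :: w) : Vs K P N) = if i = j then bv (none, w) else 0 := by
  simp [oCi, Finsupp.linearCombination_single]
@[simp] theorem oCi_some (i : N) (q : P) (w : List N) : oCi i (bv (some q, w) : Vs K P N) = 0 := by
  simp [oCi, Finsupp.linearCombination_single]

/-- all the arrows -/
noncomputable def oA : P ⊕ N → Module.End K (Vs K P N)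
  | .inl p => oAp p
  | .inr i => oAi i

/-- all the ghost arrows -/
noncomputable def oC : P ⊕ N → Module.End K (Vs K P N)
  | .inl p => oCp p
  | .inr i => oCi i

/-- the projection to the empty word -/
noncomputable def pr0 : Module.End K (Vs K P N) :=
  Finsupp.linearCombination K (fun b : Bs P N => match b with
    | (none, []) => (bv (none, []) : Vs K P N)
    | (none, _ :: _) => 0
    | (some _, _) => 0)

@[simp] theorem pr0_nil : pr0 (bv (none, []) : Vs K P N) = bv (none, []) := by
  simp [pr0, Finsupp.linearCombination_single]
@[simp] theorem pr0_cons (j : N) (w : List N) : pr0 (bv (none, j :: w) : Vs K P N) = 0 := by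
  simp [pr0, Finsupp.linearCombination_single]
@[simp] theorem pr0_some (q : P) (w : List N) : pr0 (bv (some q, w) : Vs K P N) = 0 := by
  simp [pr0, Finsupp.linearCombination_single]

theorem ext_bv {S T : Module.End K (Vs K P N)} (h : ∀ o w, S (bv (o, w)) = T (bv (o, w))) :
    S = T := by
  apply Finsupp.lhom_ext'
  rintro ⟨o, w⟩
  apply LinearMap.ext_ring
  exact h o w

theorem fr_pr0 : FR (pr0 : Module.End K (Vs K P N)) := by
  have h : LinearMap.range (pr0 : Module.End K (Vs K P N)) ≤
      Submodule.span K {(bv (none, []) : Vs K P N)} := by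
    rw [LinearMap.range_eq_map, ← (Finsupp.supported_univ (M := K) (R := K) : _ = ⊤),
      Finsupp.supported_eq_span_single, Submodule.map_span, Submodule.span_le]
    rintro _ ⟨_, ⟨⟨o, w⟩, _, rfl⟩, rfl⟩
    rcases o with _ | q
    · cases w with
      | nil => rw [pr0_nil]; exact Submodule.subset_span rfl
      | cons j w => rw [pr0_cons]; exact Submodule.zero_mem _
    · rw [pr0_some]; exact Submodule.zero_mem _
  exact Submodule.finiteDimensional_of_le h

/-- the free representation -/
noncomputable def rho : FreeAlgebra K (UG (P ⊕ N)) →ₐ[K] Module.End K (Vs K P N) :=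
  FreeAlgebra.lift K (fun g => match g with
    | .b => oB
    | .a e => oA e
    | .c e => oC e)

theorem rho_b : rho (ι K .b) = (oB : Module.End K (Vs K P N)) := by simp [rho]
theorem rho_a (e : P ⊕ N) : rho (ι K (.a e)) = (oA e : Module.End K (Vs K P N)) := by simp [rho]
theorem rho_c (e : P ⊕ N) : rho (ι K (.c e)) = (oC e : Module.End K (Vs K P N)) := by simp [rho]

theorem sum_loops : ∑ i : N, oAi i * oCi i = (oB - pr0 : Module.End K (Vs K P N)) := by
  apply ext_bv
  intro o w
  rw [LinearMap.sum_apply, LinearMap.sub_apply]
  rcases o with _ | q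
  · cases w with
    | nil => simp
    | cons j w =>
      simp only [Module.End.mul_apply, oCi_cons, oB_none, pr0_cons, sub_zero]
      rw [Finset.sum_eq_single j]
      · simp
      · intro i _ hi
        rw [if_neg hi, map_zero]
      · intro h; exact absurd (Finset.mem_univ j) h
  · simp

theorem sum_nonloops : ∑ p : P, oAp p * oCp p = (1 - oB : Module.End K (Vs K P N)) := by
  apply ext_bv
  intro o w
  rw [LinearMap.sum_apply, LinearMap.sub_apply]
  rcases o with _ | q
  · simp
  · simp only [Module.End.mul_apply, oCp_some, oB_some, sub_zero, Module.End.one_apply]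
    rw [Finset.sum_eq_single q]
    · simp
    · intro p _ hp
      rw [if_neg hp, map_zero]
    · intro h; exact absurd (Finset.mem_univ q) h

theorem rel_rho {x y : FreeAlgebra K (UG (P ⊕ N))} (h : UR K (P ⊕ N) rt x y) :
    FR (rho x - rho y : Module.End K (Vs K P N)) := by
  induction h with
  | ab e =>
    apply FR.of_eq
    rw [map_mul, rho_a, rho_b]
    apply ext_bv
    intro o w
    rcases e with p | i <;> rcases o with _ | q <;> simp [oA]
  | bc e =>
    apply FR.of_eq
    rw [map_mul, rho_c, rho_b]
    apply ext_bv
    intro o w
    rcases e with p | i <;> rcases o with _ | q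
    · simp [oC]
    · simp only [oC, Module.End.mul_apply, oCp_some]
      split_ifs <;> simp
    · cases w with
      | nil => simp [oC]
      | cons j w =>
        simp only [oC, Module.End.mul_apply, oCi_cons]
        split_ifs <;> simp
    · simp [oC]
  | ca e f =>
    apply FR.of_eq
    rw [map_mul, rho_c, rho_a, apply_ite rho, rho_b, map_zero]
    apply ext_bv
    intro o w
    rcases e with p | i <;> rcases f with p' | i' <;> rcases o with _ | q
    · by_cases h : p = p'
      · simp [oA, oC, h]
      · simp [oA, oC, h]
    · by_cases h : p = p'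
      · simp [oA, oC, h]
      · simp [oA, oC, h]
    · simp [oA, oC]
    · simp [oA, oC]
    · simp [oA, oC]
    · simp [oA, oC]
    · by_cases h : i = i'
      · simp [oA, oC, h]
      · simp [oA, oC, h]
    · by_cases h : i = i'
      · simp [oA, oC, h]
      · simp [oA, oC, h]
  | sl =>
    rw [map_sum]
    simp only [Fintype.sum_sum_type, Sum.isRight_inl, Sum.isRight_inr, Bool.false_eq_true, if_false,
      if_true, map_zero, Finset.sum_const_zero, zero_add, map_mul, rho_a, rho_c, rho_b, oA, oC]
    rw [sum_loops]
    have : (oB - pr0 - oB : Module.End K (Vs K P N)) = -(pr0 : Module.End K (Vs K P N)) := by abel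
    rw [this]
    exact fr_pr0.neg
  | s1 =>
    rw [map_sum]
    simp only [Fintype.sum_sum_type, map_mul, rho_a, rho_c, map_one, oA, oC]
    rw [sum_loops, sum_nonloops]
    have : (1 - oB + (oB - pr0) - 1 : Module.End K (Vs K P N)) = -(pr0 : Module.End K (Vs K P N)) := by abel
    rw [this]
    exact fr_pr0.neg

/-- the representation modulo finite rank -/
noncomputable def rhoq : U K (P ⊕ N) rt →ₐ[K] (frc K (Vs K P N)).Quotient :=
  RingQuot.liftAlgHom K ⟨(RingCon.mkₐ K (frc K (Vs K P N))).comp rho, fun x y h =>
    (RingCon.eq _).2 (rel_rho h)⟩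

theorem rho_congr {x y : FreeAlgebra K (UG (P ⊕ N))}
    (h : RingQuot.mkAlgHom K (UR K (P ⊕ N) rt) x = RingQuot.mkAlgHom K (UR K (P ⊕ N) rt) y) :
    FR (rho x - rho y : Module.End K (Vs K P N)) := by
  have h1 := congrArg rhoq h
  rw [rhoq, RingQuot.liftAlgHom_mkAlgHom_apply, RingQuot.liftAlgHom_mkAlgHom_apply] at h1
  exact (RingCon.eq _).1 h1

end Pool.Agent.X329.Leavitt
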