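import Pool.Agent.X329.Leavitt.Rep

/-!
# The regularised trace is a trace
-/

set_option autoImplicit false

namespace Pool.Agent.X329.Leavitt

open FreeAlgebra

variable {K : Type} [Field K]
variable {P N : Type} [Fintype P] [DecidableEq P] [Fintype N] [DecidableEq N]

/-- a criterion for `Good` on basis vectors -/
theorem good_of {T : Vs K P N →ₗ[K] Vs K P N} (m : ℕ)
    (h1 : ∀ j o w, m ≤ w.length → T (bv (o, w ++ [j])) = R j (T (bv (o, w))))
    (h2 : ∀ k o w, k + m ≤ w.length → T (bv (o, w)) ∈ Z K P N k) : Good T := by
  refine ⟨m, fun j x hx => ?_, fun k x hx => ?_⟩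
  · have hx' : x ∈ Submodule.span K ((fun b => Finsupp.single b (1 : K)) ''
        {b : Bs P N | m ≤ b.2.length}) := by
      rw [← Finsupp.supported_eq_span_single]
      exact hx
    clear hx
    induction hx' using Submodule.span_induction with
    | mem x hx =>
      obtain ⟨⟨o, w⟩, hb, rfl⟩ := hx
      have h3 : R j (bv (o, w) : Vs K P N) = bv (o, w ++ [j]) := by
        rw [R, Finsupp.lmapDomain_apply, Finsupp.mapDomain_single]
        rfl
      change T (R j (bv (o, w))) = R j (T (bv (o, w)))
      rw [h3, h1 j o w hb]
    | zero => simp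
    | add x y _ _ ihx ihy =>
      rw [map_add, map_add, map_add, map_add, ihx, ihy]
    | smul c x _ ih =>
      rw [map_smul, map_smul, map_smul, map_smul, ih]
  · have hx' : x ∈ Submodule.span K ((fun b => Finsupp.single b (1 : K)) ''
        {b : Bs P N | k + m ≤ b.2.length}) := by
      rw [← Finsupp.supported_eq_span_single]
      exact hx
    have h3 : Submodule.span K ((fun b => Finsupp.single b (1 : K)) ''
        {b : Bs P N | k + m ≤ b.2.length}) ≤ (Z K P N k).comap T := by
      rw [Submodule.span_le]
      rintro _ ⟨⟨o, w⟩, hb, rfl⟩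
      exact h2 k o w hb
    exact h3 hx'

theorem R_bv (j : N) (o : Option P) (w : List N) :
    R j (bv (o, w) : Vs K P N) = bv (o, w ++ [j]) := by
  rw [R, Finsupp.lmapDomain_apply, Finsupp.mapDomain_single]
  rfl

theorem good_b : Good (oB : Module.End K (Vs K P N)) := by
  refine good_of 0 (fun j o w _ => ?_) (fun k o w h => ?_)
  · rcases o with _ | q
    · rw [oB_none, oB_none, R_bv]
    · rw [oB_some, oB_some, map_zero]
  · rcases o with _ | q
    · rw [oB_none]; exact bv_mem_Z (by simpa using h)
    · rw [oB_some]; exact Submodule.zero_mem _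

theorem good_a (e : P ⊕ N) : Good (oA e : Module.End K (Vs K P N)) := by
  rcases e with p | i
  · refine good_of 0 (fun j o w _ => ?_) (fun k o w h => ?_)
    · rcases o with _ | q
      · rw [oA, oAp_none, oAp_none, R_bv]
      · rw [oA, oAp_some, oAp_some, map_zero]
    · rcases o with _ | q
      · rw [oA, oAp_none]; exact bv_mem_Z (by simpa using h)
      · rw [oA, oAp_some]; exact Submodule.zero_mem _
  · refine good_of 0 (fun j o w _ => ?_) (fun k o w h => ?_)
    · rcases o with _ | q
      · rw [oA, oAi_none, oAi_none, R_bv]
        rfl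
      · rw [oA, oAi_some, oAi_some, map_zero]
    · rcases o with _ | q
      · rw [oA, oAi_none]; exact bv_mem_Z (by simp at h ⊢; omega)
      · rw [oA, oAi_some]; exact Submodule.zero_mem _

theorem good_c (e : P ⊕ N) : Good (oC e : Module.End K (Vs K P N)) := by
  rcases e with p | i
  · refine good_of 0 (fun j o w _ => ?_) (fun k o w h => ?_)
    · rcases o with _ | q
      · rw [oC, oCp_none, oCp_none, map_zero]
      · rw [oC, oCp_some, oCp_some]
        split_ifs
        · rw [R_bv]
        · rw [map_zero]
    · rcases o with _ | q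
      · rw [oC, oCp_none]; exact Submodule.zero_mem _
      · rw [oC, oCp_some]
        split_ifs
        · exact bv_mem_Z (by simpa using h)
        · exact Submodule.zero_mem _
  · refine good_of 1 (fun j o w h => ?_) (fun k o w h => ?_)
    · rcases o with _ | q
      · cases w with
        | nil => simp at h
        | cons a w =>
          rw [oC, oCi_cons, List.cons_append, oCi_cons]
          split_ifs
          · rw [R_bv]
          · rw [map_zero]
      · rw [oC, oCi_some, oCi_some, map_zero]
    · rcases o with _ | q
      · cases w with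
        | nil => simp at h
        | cons a w =>
          rw [oC, oCi_cons]
          split_ifs
          · exact bv_mem_Z (by simpa using h)
          · exact Submodule.zero_mem _
      · rw [oC, oCi_some]; exact Submodule.zero_mem _

theorem good_rho (f : FreeAlgebra K (UG (P ⊕ N))) : Good (rho f : Module.End K (Vs K P N)) := by
  induction f using FreeAlgebra.induction with
  | grade0 r =>
    rw [AlgHom.commutes, Algebra.algebraMap_eq_smul_one]
    exact Good.smul r Good.one
  | grade1 x =>
    rcases x with _ | e | e
    · rw [rho_b]; exact good_b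
    · rw [rho_a]; exact good_a e
    · rw [rho_c]; exact good_c e
  | mul a b ha hb => rw [map_mul]; exact Good.mul ha hb
  | add a b ha hb => rw [map_add]; exact Good.add ha hb

/-! ### Coefficients -/

theorem coef_B (x : Vs K P N) (o : Option P) (w : List N) :
    oB x (o, w) = if o = none then x (none, w) else 0 := by
  induction x using Finsupp.induction_linear with
  | zero => simp
  | add f g hf hg =>
    rw [map_add, Finsupp.add_apply, hf, hg]
    split_ifs <;> simp
  | single b c =>
    obtain ⟨q, v⟩ := b
    have : (Finsupp.single (q, v) c : Vs K P N) = c • bv (q, v) := by simp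
    rw [this, map_smul, Finsupp.smul_apply, Finsupp.smul_apply]
    rcases q with _ | q <;> rcases o with _ | o <;> simp [Finsupp.single_apply]

theorem coef_Ap (p : P) (x : Vs K P N) (o : Option P) (w : List N) :
    oAp p x (o, w) = if o = some p then x (none, w) else 0 := by
  induction x using Finsupp.induction_linear with
  | zero => simp
  | add f g hf hg =>
    rw [map_add, Finsupp.add_apply, hf, hg]
    split_ifs <;> simp
  | single b c =>
    obtain ⟨q, v⟩ := b
    have : (Finsupp.single (q, v) c : Vs K P N) = c • bv (q, v) := by simp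
    rw [this, map_smul, Finsupp.smul_apply, Finsupp.smul_apply]
    rcases q with _ | q
    · rw [oAp_none]
      by_cases h : o = some p
      · subst h; simp [Finsupp.single_apply]
      · have h' : ¬ (some p = o) := fun h'' => h h''.symm
        simp [Finsupp.single_apply, h, h']
    · simp [Finsupp.single_apply]

theorem coef_Cp (p : P) (x : Vs K P N) (o : Option P) (w : List N) :
    oCp p x (o, w) = if o = none then x (some p, w) else 0 := by
  induction x using Finsupp.induction_linear with
  | zero => simp
  | add f g hf hg =>
    rw [map_add, Finsupp.add_apply, hf, hg]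
    split_ifs <;> simp
  | single b c =>
    obtain ⟨q, v⟩ := b
    have : (Finsupp.single (q, v) c : Vs K P N) = c • bv (q, v) := by simp
    rw [this, map_smul, Finsupp.smul_apply, Finsupp.smul_apply]
    rcases q with _ | q
    · simp [Finsupp.single_apply]
    · rw [oCp_some]
      by_cases h : p = q
      · subst h
        rcases o with _ | o <;> simp [Finsupp.single_apply]
      · have h' : ¬ (q = p) := fun h'' => h h''.symm
        simp [Finsupp.single_apply, h, h']

theorem coef_Ai_nil (i : N) (x : Vs K P N) : oAi i x (none, []) = 0 := by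
  induction x using Finsupp.induction_linear with
  | zero => simp
  | add f g hf hg => rw [map_add, Finsupp.add_apply, hf, hg, add_zero]
  | single b c =>
    obtain ⟨q, v⟩ := b
    have : (Finsupp.single (q, v) c : Vs K P N) = c • bv (q, v) := by simp
    rw [this, map_smul, Finsupp.smul_apply]
    rcases q with _ | q <;> simp

theorem coef_Ai_some (i : N) (x : Vs K P N) (q : P) (w : List N) : oAi i x (some q, w) = 0 := by
  induction x using Finsupp.induction_linear with
  | zero => simp
  | add f g hf hg => rw [map_add, Finsupp.add_apply, hf, hg, add_zero]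
  | single b c =>
    obtain ⟨q', v⟩ := b
    have : (Finsupp.single (q', v) c : Vs K P N) = c • bv (q', v) := by simp
    rw [this, map_smul, Finsupp.smul_apply]
    rcases q' with _ | q' <;> simp

theorem coef_Ai_cons (i j : N) (x : Vs K P N) (w : List N) :
    oAi i x (none, j :: w) = if i = j then x (none, w) else 0 := by
  induction x using Finsupp.induction_linear with
  | zero => simp
  | add f g hf hg =>
    rw [map_add, Finsupp.add_apply, hf, hg]
    split_ifs <;> simp
  | single b c =>
    obtain ⟨q, v⟩ := b
    have : (Finsupp.single (q, v) c : Vs K P N) = c • bv (q, v) := by simp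
    rw [this, map_smul, Finsupp.smul_apply, Finsupp.smul_apply]
    rcases q with _ | q
    · rw [oAi_none]
      by_cases h : i = j
      · subst h; simp [Finsupp.single_apply]
      · simp [Finsupp.single_apply, h]
    · simp [Finsupp.single_apply]

theorem coef_Ci (i : N) (x : Vs K P N) (o : Option P) (w : List N) :
    oCi i x (o, w) = if o = none then x (none, i :: w) else 0 := by
  induction x using Finsupp.induction_linear with
  | zero => simp
  | add f g hf hg =>
    rw [map_add, Finsupp.add_apply, hf, hg]
    split_ifs <;> simp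
  | single b c =>
    obtain ⟨q, v⟩ := b
    have : (Finsupp.single (q, v) c : Vs K P N) = c • bv (q, v) := by simp
    rw [this, map_smul, Finsupp.smul_apply, Finsupp.smul_apply]
    rcases q with _ | q
    · cases v with
      | nil => simp [Finsupp.single_apply]
      | cons j v =>
        rw [oCi_cons]
        by_cases h : i = j
        · subst h
          rcases o with _ | o <;> simp [Finsupp.single_apply]
        · have h' : ¬ (j = i) := fun h'' => h h''.symm
          simp [Finsupp.single_apply, h, h']
    · simp [Finsupp.single_apply]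

/-! ### The trace property -/

theorem sl_B (m : ℕ) (S : Module.End K (Vs K P N)) :
    sl m (oB ∘ₗ S) = sl m (S ∘ₗ oB) := by
  simp [sl, coef_B, Fintype.sum_option, ws_zero]

theorem sl_Ap (m : ℕ) (p : P) (S : Module.End K (Vs K P N)) :
    sl m (oAp p ∘ₗ S) = sl m (S ∘ₗ oAp p) := by
  simp only [sl, Fintype.sum_option, LinearMap.comp_apply, coef_Ap, oAp_none, oAp_some, map_zero,
    Finsupp.coe_zero, Pi.zero_apply, ws_zero, Finset.sum_const_zero, add_zero]
  rw [Finset.sum_eq_single p]
  · simp [ws_zero]
  · intro q _ hq
    simp [hq, ws_zero]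
  · intro h; exact absurd (Finset.mem_univ p) h

theorem sl_Cp (m : ℕ) (p : P) (S : Module.End K (Vs K P N)) :
    sl m (oCp p ∘ₗ S) = sl m (S ∘ₗ oCp p) := by
  simp only [sl, Fintype.sum_option, LinearMap.comp_apply, coef_Cp, oCp_none, oCp_some, map_zero,
    Finsupp.coe_zero, Pi.zero_apply, ws_zero, zero_add]
  rw [Finset.sum_eq_single p (f := fun q => ws m fun w =>
    (S (if p = q then bv (none, w) else 0)) (some q, w))]
  · simp [ws_zero]
  · intro q _ hq
    simp [Ne.symm hq, ws_zero]
  · intro h; exact absurd (Finset.mem_univ p) h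

theorem sl_Ai0 (i : N) (S : Module.End K (Vs K P N)) : sl 0 (oAi i ∘ₗ S) = 0 := by
  simp [sl, ws, Fintype.sum_option, coef_Ai_nil, coef_Ai_some]

theorem sl_Ai (m : ℕ) (i : N) (S : Module.End K (Vs K P N)) :
    sl (m + 1) (oAi i ∘ₗ S) = sl m (S ∘ₗ oAi i) := by
  simp only [sl, ws, Fintype.sum_option, LinearMap.comp_apply, coef_Ai_cons, coef_Ai_some, oAi_none,
    oAi_some, map_zero, Finsupp.coe_zero, Pi.zero_apply, ws_zero, Finset.sum_const_zero, add_zero]
  rw [Finset.sum_eq_single i]
  · simp
  · intro j _ hj
    simp [Ne.symm hj, ws_zero]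
  · intro h; exact absurd (Finset.mem_univ i) h

theorem sl_Ci0 (i : N) (S : Module.End K (Vs K P N)) : sl 0 (S ∘ₗ oCi i) = 0 := by
  simp [sl, ws, Fintype.sum_option]

theorem sl_Ci (m : ℕ) (i : N) (S : Module.End K (Vs K P N)) :
    sl (m + 1) (S ∘ₗ oCi i) = sl m (oCi i ∘ₗ S) := by
  simp only [sl, ws, Fintype.sum_option, LinearMap.comp_apply, coef_Ci, oCi_cons, oCi_some,
    map_zero, Finsupp.coe_zero, Pi.zero_apply, ws_zero, Finset.sum_const_zero, add_zero]
  rw [Finset.sum_eq_single i]
  · simp [ws_zero]
  · intro j _ hj
    simp [Ne.symm hj, ws_zero]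
  · intro h; exact absurd (Finset.mem_univ i) h

/-- **The trace property.** -/
theorem tau_comm (f : FreeAlgebra K (UG (P ⊕ N))) : ∀ (S : Module.End K (Vs K P N)), Good S →
    ∀ c, Tau (rho f ∘ₗ S) c → Tau (S ∘ₗ rho f) c := by
  induction f using FreeAlgebra.induction with
  | grade0 r =>
    intro S _ c h
    rw [AlgHom.commutes, Algebra.algebraMap_eq_smul_one] at h ⊢
    have e : ((r • (1 : Module.End K (Vs K P N))) ∘ₗ S) = (S ∘ₗ (r • (1 : Module.End K (Vs K P N)))) := by
      refine LinearMap.ext fun x => ?_
      rw [LinearMap.comp_apply, LinearMap.comp_apply, LinearMap.smul_apply, LinearMap.smul_apply,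
        map_smul]
      rfl
    rwa [e] at h
  | grade1 x =>
    intro S _ c h
    rcases x with _ | e | e
    · rw [rho_b] at h ⊢
      exact (Tau.same fun k => sl_B k S).1 h
    · rw [rho_a] at h ⊢
      rcases e with p | i
      · exact (Tau.same fun k => sl_Ap k p S).1 h
      · exact (Tau.shift (sl_Ai0 i S) fun k => sl_Ai k i S).1 h
    · rw [rho_c] at h ⊢
      rcases e with p | i
      · exact (Tau.same fun k => sl_Cp k p S).1 h
      · exact (Tau.shift (sl_Ci0 i S) fun k => sl_Ci k i S).2 h
  | mul a b ha hb =>
    intro S hS c h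
    rw [map_mul] at h ⊢
    have h1 := ha (rho b ∘ₗ S) (Good.mul (good_rho b) hS) c h
    exact hb (S ∘ₗ rho a) (Good.mul hS (good_rho a)) c h1
  | add a b ha hb =>
    intro S hS c h
    rw [map_add] at h ⊢
    obtain ⟨c1, h1⟩ := (Good.mul (good_rho a) hS).tau
    obtain ⟨c2, h2⟩ := (Good.mul (good_rho b) hS).tau
    have h3 : Tau ((rho a + rho b) ∘ₗ S) (c1 + c2) := by
      have := h1.add h2
      exact this
    have h4 := h3.unique h
    rw [← h4]
    have h5 := (ha S hS c1 h1).add (hb S hS c2 h2)
    have e : S ∘ₗ (rho a + rho b) = S ∘ₗ rho a + S ∘ₗ rho b := LinearMap.comp_add _ _ _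
    rw [e]
    exact h5

end Pool.Agent.X329.Leavitt
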