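import Pool.Agent.X329.Leavitt.Defs

/-!
# The algebra of a quiver all of whose arrows end in one vertex
-/

set_option autoImplicit false

namespace Pool.Agent.X329.Leavitt

open FreeAlgebra

variable (K : Type) [Field K]

/-- generators -/
inductive UG (E : Type) : Type
  | b : UG E
  | a (e : E) : UG E
  | c (e : E) : UG E

/-- relations: `β` the base vertex, `a e` the arrows, `c e` the ghost arrows, `l e` says that `e` is a
loop -/
inductive UR (E : Type) [Fintype E] [DecidableEq E] (l : E → Bool) :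
    FreeAlgebra K (UG E) → FreeAlgebra K (UG E) → Prop
  | ab (e : E) : UR E l (ι K (.a e) * ι K .b) (ι K (.a e))
  | bc (e : E) : UR E l (ι K .b * ι K (.c e)) (ι K (.c e))
  | ca (e f : E) : UR E l (ι K (.c e) * ι K (.a f)) (if e = f then ι K .b else 0)
  | sl : UR E l (∑ e, if l e then ι K (.a e) * ι K (.c e) else 0) (ι K .b)
  | s1 : UR E l (∑ e, ι K (.a e) * ι K (.c e)) 1

/-- the algebra -/
abbrev U (E : Type) [Fintype E] [DecidableEq E] (l : E → Bool) : Type := RingQuot (UR K E l)

section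

variable {K}
variable {E : Type} [Fintype E] [DecidableEq E] {l : E → Bool}

/-- base vertex -/
def ub : U K E l := RingQuot.mkAlgHom K (UR K E l) (ι K .b)
/-- arrow -/
def ua (e : E) : U K E l := RingQuot.mkAlgHom K (UR K E l) (ι K (.a e))
/-- ghost arrow -/
def uc (e : E) : U K E l := RingQuot.mkAlgHom K (UR K E l) (ι K (.c e))

theorem ua_ub (e : E) : (ua e : U K E l) * ub = ua e := by
  rw [ua, ub, ← map_mul]
  exact RingQuot.mkAlgHom_rel K (UR.ab e)

theorem ub_uc (e : E) : (ub : U K E l) * uc e = uc e := by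
  rw [uc, ub, ← map_mul]
  exact RingQuot.mkAlgHom_rel K (UR.bc e)

theorem uc_ua (e f : E) : (uc e : U K E l) * ua f = if e = f then ub else 0 := by
  rw [uc, ua, ← map_mul, RingQuot.mkAlgHom_rel K (UR.ca e f)]
  split_ifs
  · rfl
  · exact map_zero _

theorem sum_l : (∑ e, if l e then (ua e : U K E l) * uc e else 0) = ub := by
  have h := RingQuot.mkAlgHom_rel K (UR.sl (K := K) (E := E) (l := l))
  rw [map_sum] at h
  rw [← show (RingQuot.mkAlgHom K (UR K E l)) (ι K .b) = (ub : U K E l) from rfl, ← h]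
  refine Finset.sum_congr rfl fun e _ => ?_
  split_ifs
  · rw [map_mul]; rfl
  · rw [map_zero]

theorem sum_1 : (∑ e, (ua e : U K E l) * uc e) = 1 := by
  have h := RingQuot.mkAlgHom_rel K (UR.s1 (K := K) (E := E) (l := l))
  rw [map_sum, map_one] at h
  rw [← h]
  refine Finset.sum_congr rfl fun e _ => ?_
  rw [map_mul]; rfl

theorem ub_ua {e : E} (he : l e = true) : (ub : U K E l) * ua e = ua e := by
  nth_rewrite 1 [← sum_l]
  rw [Finset.sum_mul, Finset.sum_eq_single e]
  · rw [if_pos he, mul_assoc, uc_ua, if_pos rfl, ua_ub]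
  · intro f _ hf
    split_ifs
    · rw [mul_assoc, uc_ua, if_neg hf, mul_zero]
    · rw [zero_mul]
  · intro h; exact absurd (Finset.mem_univ e) h

theorem uc_ub {e : E} (he : l e = true) : (uc e : U K E l) * ub = uc e := by
  nth_rewrite 1 [← sum_l]
  rw [Finset.mul_sum, Finset.sum_eq_single e]
  · rw [if_pos he, ← mul_assoc, uc_ua, if_pos rfl, ub_uc]
  · intro f _ hf
    split_ifs
    · rw [← mul_assoc, uc_ua, if_neg (Ne.symm hf), zero_mul]
    · rw [mul_zero]
  · intro h; exact absurd (Finset.mem_univ e) h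

theorem ub_ub [Nonempty E] : (ub : U K E l) * ub = ub := by
  obtain ⟨e⟩ := ‹Nonempty E›
  have h : (ub : U K E l) = uc e * ua e := by rw [uc_ua, if_pos rfl]
  nth_rewrite 1 [h]
  rw [mul_assoc, ua_ub, ← h]

variable {B : Type} [Ring B] [Algebra K B]

/-- universal property -/
def Ulift (b : B) (a c : E → B) (hab : ∀ e, a e * b = a e) (hbc : ∀ e, b * c e = c e)
    (hca : ∀ e f, c e * a f = if e = f then b else 0)
    (hsl : (∑ e, if l e then a e * c e else 0) = b) (hs1 : (∑ e, a e * c e) = 1) :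
    U K E l →ₐ[K] B :=
  RingQuot.liftAlgHom K ⟨FreeAlgebra.lift K (fun g => match g with
    | .b => b
    | .a e => a e
    | .c e => c e), by
      intro x y h
      induction h with
      | ab e => simpa using hab e
      | bc e => simpa using hbc e
      | ca e f =>
        rw [map_mul, FreeAlgebra.lift_ι_apply, FreeAlgebra.lift_ι_apply, hca]
        split_ifs <;> simp
      | sl =>
        rw [map_sum, FreeAlgebra.lift_ι_apply, ← hsl]
        refine Finset.sum_congr rfl fun e _ => ?_
        split_ifs <;> simp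
      | s1 => simpa using hs1⟩

theorem Ulift_b (b : B) (a c : E → B) (hab : ∀ e, a e * b = a e) (hbc : ∀ e, b * c e = c e)
    (hca : ∀ e f, c e * a f = if e = f then b else 0)
    (hsl : (∑ e, if l e then a e * c e else 0) = b) (hs1 : (∑ e, a e * c e) = 1) :
    Ulift (K := K) b a c hab hbc hca hsl hs1 ub = b := by
  simp [Ulift, ub]

theorem Ulift_a (b : B) (a c : E → B) (hab : ∀ e, a e * b = a e) (hbc : ∀ e, b * c e = c e)
    (hca : ∀ e f, c e * a f = if e = f then b else 0)
    (hsl : (∑ e, if l e then a e * c e else 0) = b) (hs1 : (∑ e, a e * c e) = 1) (e : E) :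
    Ulift (K := K) b a c hab hbc hca hsl hs1 (ua e) = a e := by
  simp [Ulift, ua]

theorem Ulift_c (b : B) (a c : E → B) (hab : ∀ e, a e * b = a e) (hbc : ∀ e, b * c e = c e)
    (hca : ∀ e f, c e * a f = if e = f then b else 0)
    (hsl : (∑ e, if l e then a e * c e else 0) = b) (hs1 : (∑ e, a e * c e) = 1) (e : E) :
    Ulift (K := K) b a c hab hbc hca hsl hs1 (uc e) = c e := by
  simp [Ulift, uc]

theorem U_ext {f g : U K E l →ₐ[K] B} (hb : f ub = g ub) (ha : ∀ e, f (ua e) = g (ua e))
    (hc : ∀ e, f (uc e) = g (uc e)) : f = g := by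
  apply RingQuot.ringQuot_ext'
  apply FreeAlgebra.hom_ext
  funext x
  cases x with
  | b => exact hb
  | a e => exact ha e
  | c e => exact hc e

end

/-! ### Leavitt path algebras -/

section

variable {K}
variable {Q : FQ}

/-- vertex -/
def lv (v : Q.V) : LPA K Q := RingQuot.mkAlgHom K (Rel K Q) (ι K (.v v))
/-- arrow -/
def le (e : Q.E) : LPA K Q := RingQuot.mkAlgHom K (Rel K Q) (ι K (.e e))
/-- ghost arrow -/
def lg (e : Q.E) : LPA K Q := RingQuot.mkAlgHom K (Rel K Q) (ι K (.g e))

theorem sum_lv : (∑ v, (lv v : LPA K Q)) = 1 := by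
  have h := RingQuot.mkAlgHom_rel K (Rel.sum_v (K := K) (Q := Q))
  rw [map_sum, map_one] at h
  exact h

theorem le_lv (e : Q.E) : (le e : LPA K Q) * lv (Q.r e) = le e := by
  rw [le, lv, ← map_mul]
  exact RingQuot.mkAlgHom_rel K (Rel.er e)

theorem lv_lg (e : Q.E) : (lv (Q.r e) : LPA K Q) * lg e = lg e := by
  rw [lg, lv, ← map_mul]
  exact RingQuot.mkAlgHom_rel K (Rel.rg e)

theorem lg_le (e f : Q.E) : (lg e : LPA K Q) * le f = if e = f then lv (Q.r e) else 0 := by
  rw [lg, le, ← map_mul, RingQuot.mkAlgHom_rel K (Rel.ck1 e f)]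
  split_ifs
  · rfl
  · exact map_zero _

theorem lv_eq {v : Q.V} (hv : ∃ e, Q.s e = v) :
    (lv v : LPA K Q) = ∑ e with Q.s e = v, le e * lg e := by
  rw [lv, RingQuot.mkAlgHom_rel K (Rel.ck2 v hv), map_sum]
  refine Finset.sum_congr rfl fun e _ => ?_
  rw [map_mul]; rfl

variable {B : Type} [Ring B] [Algebra K B]

/-- universal property -/
def Llift (V : Q.V → B) (a c : Q.E → B) (hvv : ∀ v w, V v * V w = if v = w then V v else 0)
    (hs : ∑ v, V v = 1) (hse : ∀ e, V (Q.s e) * a e = a e) (her : ∀ e, a e * V (Q.r e) = a e)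
    (hrg : ∀ e, V (Q.r e) * c e = c e) (hgs : ∀ e, c e * V (Q.s e) = c e)
    (h1 : ∀ e f, c e * a f = if e = f then V (Q.r e) else 0)
    (h2 : ∀ v, (∃ e, Q.s e = v) → V v = ∑ e with Q.s e = v, a e * c e) : LPA K Q →ₐ[K] B :=
  RingQuot.liftAlgHom K ⟨FreeAlgebra.lift K (fun g => match g with
    | .v v => V v
    | .e e => a e
    | .g e => c e), by
      intro x y h
      induction h with
      | vv v w =>
        rw [map_mul, FreeAlgebra.lift_ι_apply, FreeAlgebra.lift_ι_apply, hvv]
        split_ifs <;> simp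
      | sum_v => simpa using hs
      | se e => simpa using hse e
      | er e => simpa using her e
      | rg e => simpa using hrg e
      | gs e => simpa using hgs e
      | ck1 e f =>
        rw [map_mul, FreeAlgebra.lift_ι_apply, FreeAlgebra.lift_ι_apply, h1]
        split_ifs <;> simp
      | ck2 v hv => simpa using h2 v hv⟩

theorem L_ext {f g : LPA K Q →ₐ[K] B} (hv : ∀ v, f (lv v) = g (lv v))
    (he : ∀ e, f (le e) = g (le e)) (hg : ∀ e, f (lg e) = g (lg e)) : f = g := by
  apply RingQuot.ringQuot_ext'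
  apply FreeAlgebra.hom_ext
  funext x
  cases x with
  | v v => exact hv v
  | e e => exact he e
  | g e => exact hg e

end

section iso

variable {K}
variable {Q : FQ}

/-- loops at `b` -/
def lb (Q : FQ) (b : Q.V) : Q.E → Bool := fun e => decide (Q.s e = b)

/-- the image of a vertex -/
def vx (b v : Q.V) : U K Q.E (lb Q b) := ∑ e with Q.s e = v, ua e * uc e

theorem vx_b (b : Q.V) : (vx b b : U K Q.E (lb Q b)) = ub := by
  rw [← sum_l, vx, Finset.sum_filter]
  refine Finset.sum_congr rfl fun e _ => ?_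
  simp [lb]

theorem vx_ua (b v : Q.V) (e : Q.E) :
    (vx b v : U K Q.E (lb Q b)) * ua e = if Q.s e = v then ua e else 0 := by
  rw [vx, Finset.sum_mul]
  split_ifs with h
  · rw [Finset.sum_eq_single e]
    · rw [mul_assoc, uc_ua, if_pos rfl, ua_ub]
    · intro f _ hf
      rw [mul_assoc, uc_ua, if_neg hf, mul_zero]
    · intro h'; exact absurd (Finset.mem_filter.2 ⟨Finset.mem_univ e, h⟩) h'
  · refine Finset.sum_eq_zero fun f hf => ?_
    have : f ≠ e := by rintro rfl; exact h (Finset.mem_filter.1 hf).2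
    rw [mul_assoc, uc_ua, if_neg this, mul_zero]

theorem uc_vx (b v : Q.V) (e : Q.E) :
    (uc e : U K Q.E (lb Q b)) * vx b v = if Q.s e = v then uc e else 0 := by
  rw [vx, Finset.mul_sum]
  split_ifs with h
  · rw [Finset.sum_eq_single e]
    · rw [← mul_assoc, uc_ua, if_pos rfl, ub_uc]
    · intro f _ hf
      rw [← mul_assoc, uc_ua, if_neg (Ne.symm hf), zero_mul]
    · intro h'; exact absurd (Finset.mem_filter.2 ⟨Finset.mem_univ e, h⟩) h'
  · refine Finset.sum_eq_zero fun f hf => ?_
    have : e ≠ f := by rintro rfl; exact h (Finset.mem_filter.1 hf).2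
    rw [← mul_assoc, uc_ua, if_neg this, zero_mul]

theorem vx_vx (b v w : Q.V) :
    (vx b v : U K Q.E (lb Q b)) * vx b w = if v = w then vx b v else 0 := by
  nth_rewrite 1 [vx]
  rw [Finset.sum_mul]
  split_ifs with h
  · subst h
    rw [vx]
    refine Finset.sum_congr rfl fun e he => ?_
    rw [mul_assoc, ← vx, uc_vx, if_pos (Finset.mem_filter.1 he).2]
  · refine Finset.sum_eq_zero fun e he => ?_
    rw [mul_assoc, uc_vx, if_neg, mul_zero]
    intro h'
    exact h ((Finset.mem_filter.1 he).2.symm.trans h')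

/-- the map from the Leavitt path algebra -/
def toU (b : Q.V) (hr : ∀ e, Q.r e = b) : LPA K Q →ₐ[K] U K Q.E (lb Q b) :=
  Llift (vx b) ua uc (vx_vx b)
    (by
      rw [← sum_1]
      simp only [vx]
      rw [Finset.sum_fiberwise])
    (fun e => by rw [vx_ua, if_pos rfl])
    (fun e => by rw [hr, vx_b, ua_ub])
    (fun e => by rw [hr, vx_b, ub_uc])
    (fun e => by rw [uc_vx, if_pos rfl])
    (fun e f => by rw [hr, vx_b, uc_ua])
    (fun v _ => rfl)

/-- the map to the Leavitt path algebra -/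
def ofU (b : Q.V) (hr : ∀ e, Q.r e = b) (hs : ∀ v, ∃ e, Q.s e = v) :
    U K Q.E (lb Q b) →ₐ[K] LPA K Q :=
  Ulift (lv b) le lg
    (fun e => by have := le_lv (K := K) e; rwa [hr] at this)
    (fun e => by have := lv_lg (K := K) e; rwa [hr] at this)
    (fun e f => by rw [lg_le, hr])
    (by
      rw [lv_eq (hs b), Finset.sum_filter]
      refine Finset.sum_congr rfl fun e _ => ?_
      simp [lb])
    (by
      rw [← sum_lv]
      simp only [fun v => lv_eq (K := K) (hs v)]
      rw [Finset.sum_fiberwise])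

/-- **The Leavitt path algebra of a quiver all of whose arrows end in `b`.** -/
theorem iso_U (b : Q.V) (hr : ∀ e, Q.r e = b) (hs : ∀ v, ∃ e, Q.s e = v) :
    Nonempty (LPA K Q ≃ₐ[K] U K Q.E (lb Q b)) := by
  have t1 : ∀ v, toU (K := K) b hr (lv v) = vx b v := fun v => by simp [toU, Llift, lv]
  have t2 : ∀ e, toU (K := K) b hr (le e) = ua e := fun e => by simp [toU, Llift, le]
  have t3 : ∀ e, toU (K := K) b hr (lg e) = uc e := fun e => by simp [toU, Llift, lg]
  have s1 : ofU (K := K) b hr hs ub = lv b := Ulift_b ..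
  have s2 : ∀ e, ofU (K := K) b hr hs (ua e) = le e := fun e => Ulift_a ..
  have s3 : ∀ e, ofU (K := K) b hr hs (uc e) = lg e := fun e => Ulift_c ..
  refine ⟨AlgEquiv.ofAlgHom (toU b hr) (ofU b hr hs) ?_ ?_⟩
  · refine U_ext ?_ ?_ ?_
    · simp [s1, t1, vx_b]
    · intro e; simp [s2, t2]
    · intro e; simp [s3, t3]
  · refine L_ext ?_ ?_ ?_
    · intro v
      simp only [AlgHom.comp_apply, t1, vx, map_sum, map_mul, s2, s3]
      exact (lv_eq (hs v)).symm
    · intro e; simp [s2, t2]
    · intro e; simp [s3, t3]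

end iso

end Pool.Agent.X329.Leavitt
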