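import Pool.Agent.X329.Leavitt.Expand
import Pool.Agent.X329.Leavitt.Index

/-!
# Operators on the space of words and their regularised trace
-/

set_option autoImplicit false

namespace Pool.Agent.X329.Leavitt

variable {K : Type} [Field K]

section words

variable {N : Type} [Fintype N]

/-- the sum over the words of length `m` -/
def ws : ℕ → (List N → K) → K
  | 0, f => f []
  | m + 1, f => ∑ i, ws m (fun w => f (i :: w))

theorem ws_congr (m : ℕ) : ∀ (f g : List N → K), (∀ w, w.length = m → f w = g w) →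
    ws m f = ws m g := by
  induction m with
  | zero => intro f g h; exact h [] rfl
  | succ m ih =>
    intro f g h
    refine Finset.sum_congr rfl fun i _ => ih _ _ fun w hw => h _ (by simp [hw])

theorem ws_add (m : ℕ) : ∀ (f g : List N → K), ws m (fun w => f w + g w) = ws m f + ws m g := by
  induction m with
  | zero => intro f g; rfl
  | succ m ih =>
    intro f g
    simp only [ws]
    rw [← Finset.sum_add_distrib]
    exact Finset.sum_congr rfl fun i _ => ih _ _

theorem ws_zero (m : ℕ) : ws m (fun _ : List N => (0 : K)) = 0 := by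
  induction m with
  | zero => rfl
  | succ m ih =>
    simp only [ws]
    exact Finset.sum_eq_zero fun i _ => ih

theorem ws_snoc (m : ℕ) : ∀ (f : List N → K), ws (m + 1) f = ∑ j, ws m (fun w => f (w ++ [j])) := by
  induction m with
  | zero => intro f; rfl
  | succ m ih =>
    intro f
    change ∑ i, ws (m + 1) (fun w => f (i :: w)) = ∑ j, ∑ i, ws m (fun w => f ((i :: w) ++ [j]))
    rw [Finset.sum_comm]
    exact Finset.sum_congr rfl fun i _ => ih _

/-- the words of length `m` -/
def Wd [DecidableEq N] : ℕ → Finset (List N)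
  | 0 => {[]}
  | m + 1 => Finset.univ.biUnion fun i => (Wd m).image (fun w => i :: w)

theorem mem_Wd [DecidableEq N] (m : ℕ) : ∀ w : List N, w ∈ Wd m ↔ w.length = m := by
  induction m with
  | zero => intro w; simp [Wd]
  | succ m ih =>
    intro w
    cases w with
    | nil => simp [Wd]
    | cons i w => simp [Wd, ih]

theorem ws_eq [DecidableEq N] (m : ℕ) : ∀ (f : List N → K), ws m f = ∑ w ∈ Wd m, f w := by
  induction m with
  | zero => intro f; simp [ws, Wd]
  | succ m ih =>
    intro f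
    rw [Wd, Finset.sum_biUnion]
    · refine Finset.sum_congr rfl fun i _ => ?_
      rw [ih, Finset.sum_image]
      intro a _ b _ h
      simpa using h
    · intro i _ j _ hij
      rw [Function.onFun, Finset.disjoint_left]
      intro w hw hw'
      rw [Finset.mem_image] at hw hw'
      obtain ⟨a, _, rfl⟩ := hw
      obtain ⟨b, _, h⟩ := hw'
      simp only [List.cons.injEq] at h
      exact hij h.1.symm

end words

variable {P N : Type} [Fintype P] [DecidableEq P] [Fintype N] [DecidableEq N]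

/-- basis -/
abbrev Bs (P N : Type) : Type := Option P × List N

/-- the space -/
abbrev Vs (K P N : Type) [Field K] : Type := Bs P N →₀ K

/-- basis vector -/
noncomputable abbrev bv (b : Bs P N) : Vs K P N := Finsupp.single b 1

/-- layer sums -/
noncomputable def sl (m : ℕ) (T : Vs K P N →ₗ[K] Vs K P N) : K :=
  ∑ o : Option P, ws m (fun w => T (bv (o, w)) (o, w))

/-- sums over balls -/
noncomputable def sb (m : ℕ) (T : Vs K P N →ₗ[K] Vs K P N) : K := ∑ k ∈ Finset.range (m + 1), sl k T

/-- regularised sums -/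
noncomputable def db (m : ℕ) (T : Vs K P N →ₗ[K] Vs K P N) : K :=
  sb (m + 1) T - (Fintype.card N : K) * sb m T

/-- the regularised trace is `c` -/
def Tau (T : Vs K P N →ₗ[K] Vs K P N) (c : K) : Prop := ∃ m0, ∀ m, m0 ≤ m → db m T = c

theorem Tau.unique {T : Vs K P N →ₗ[K] Vs K P N} {c c' : K} (h : Tau T c) (h' : Tau T c') :
    c = c' := by
  obtain ⟨m, hm⟩ := h
  obtain ⟨m', hm'⟩ := h'
  rw [← hm (m + m') (by omega), hm' (m + m') (by omega)]

theorem sl_add (m : ℕ) (S T : Vs K P N →ₗ[K] Vs K P N) : sl m (S + T) = sl m S + sl m T := by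
  rw [sl, sl, sl, ← Finset.sum_add_distrib]
  refine Finset.sum_congr rfl fun o _ => ?_
  rw [← ws_add]
  rfl

theorem db_add (m : ℕ) (S T : Vs K P N →ₗ[K] Vs K P N) : db m (S + T) = db m S + db m T := by
  simp only [db, sb, sl_add, Finset.sum_add_distrib]
  ring

theorem Tau.add {S T : Vs K P N →ₗ[K] Vs K P N} {c c' : K} (h : Tau S c) (h' : Tau T c') :
    Tau (S + T) (c + c') := by
  obtain ⟨m, hm⟩ := h
  obtain ⟨m', hm'⟩ := h'
  refine ⟨m + m', fun k hk => ?_⟩
  rw [db_add, hm k (by omega), hm' k (by omega)]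

theorem db_shift {m : ℕ} {S T : Vs K P N →ₗ[K] Vs K P N} (h0 : sl 0 S = 0)
    (h : ∀ k, sl (k + 1) S = sl k T) : db (m + 1) S = db m T := by
  have h1 : ∀ k, sb (k + 1) S = sb k T := by
    intro k
    rw [sb, Finset.sum_range_succ', h0, add_zero, sb]
    exact Finset.sum_congr rfl fun k _ => h k
  rw [db, db, h1, h1]

theorem Tau.shift {S T : Vs K P N →ₗ[K] Vs K P N} {c : K} (h0 : sl 0 S = 0)
    (h : ∀ k, sl (k + 1) S = sl k T) : Tau S c ↔ Tau T c := by
  constructor
  · rintro ⟨m, hm⟩
    exact ⟨m, fun k hk => by rw [← db_shift h0 h]; exact hm _ (by omega)⟩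
  · rintro ⟨m, hm⟩
    refine ⟨m + 1, fun k hk => ?_⟩
    obtain ⟨k, rfl⟩ : ∃ j, k = j + 1 := ⟨k - 1, by omega⟩
    rw [db_shift h0 h]
    exact hm _ (by omega)

theorem Tau.same {S T : Vs K P N →ₗ[K] Vs K P N} {c : K} (h : ∀ k, sl k S = sl k T) :
    Tau S c ↔ Tau T c := by
  have : ∀ m, db m S = db m T := fun m => by simp only [db, sb, h]
  simp only [Tau, this]

/-! ### Operators which commute with appending letters to long words -/

/-- appending a letter -/
def ap (j : N) (b : Bs P N) : Bs P N := (b.1, b.2 ++ [j])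

theorem ap_inj (j : N) : Function.Injective (ap (P := P) j) := by
  rintro ⟨o, w⟩ ⟨o', w'⟩ h
  simp only [ap, Prod.mk.injEq, List.append_cancel_right_eq] at h
  exact Prod.ext h.1 h.2

/-- appending a letter -/
noncomputable def R (j : N) : Vs K P N →ₗ[K] Vs K P N := Finsupp.lmapDomain K K (ap j)

/-- long words -/
def Z (K P N : Type) [Field K] (m : ℕ) : Submodule K (Vs K P N) :=
  Finsupp.supported K K {b | m ≤ b.2.length}

theorem Z_anti {m n : ℕ} (h : m ≤ n) : Z K P N n ≤ Z K P N m :=
  Finsupp.supported_mono fun _ hb => le_trans h hb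

theorem bv_mem_Z {m : ℕ} {b : Bs P N} (h : m ≤ b.2.length) : (bv b : Vs K P N) ∈ Z K P N m :=
  Finsupp.single_mem_supported K 1 h

/-- the class of operators -/
def Good (T : Vs K P N →ₗ[K] Vs K P N) : Prop :=
  ∃ m, (∀ j, ∀ x ∈ Z K P N m, T (R j x) = R j (T x)) ∧ ∀ k, ∀ x ∈ Z K P N (k + m), T x ∈ Z K P N k

theorem Good.mul {S T : Vs K P N →ₗ[K] Vs K P N} (hS : Good S) (hT : Good T) :
    Good (S ∘ₗ T) := by
  obtain ⟨m, a1, a2⟩ := hS
  obtain ⟨n, b1, b2⟩ := hT
  refine ⟨m + n, fun j x hx => ?_, fun k x hx => ?_⟩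
  · rw [LinearMap.comp_apply, b1 j x (Z_anti (by omega) hx), a1 j _ (b2 m x hx)]
    rfl
  · rw [LinearMap.comp_apply]
    refine a2 k _ (b2 (k + m) x ?_)
    rwa [add_assoc]

theorem Good.add {S T : Vs K P N →ₗ[K] Vs K P N} (hS : Good S) (hT : Good T) :
    Good (S + T) := by
  obtain ⟨m, a1, a2⟩ := hS
  obtain ⟨n, b1, b2⟩ := hT
  refine ⟨m + n, fun j x hx => ?_, fun k x hx => ?_⟩
  · rw [LinearMap.add_apply, LinearMap.add_apply, map_add, b1 j x (Z_anti (by omega) hx),
      a1 j x (Z_anti (by omega) hx)]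
  · exact Submodule.add_mem _ (a2 k x (Z_anti (by omega) hx)) (b2 k x (Z_anti (by omega) hx))

theorem Good.smul (c : K) {S : Vs K P N →ₗ[K] Vs K P N} (hS : Good S) : Good (c • S) := by
  obtain ⟨m, a1, a2⟩ := hS
  refine ⟨m, fun j x hx => ?_, fun k x hx => ?_⟩
  · rw [LinearMap.smul_apply, LinearMap.smul_apply, map_smul, a1 j x hx]
  · exact Submodule.smul_mem _ _ (a2 k x hx)

theorem Good.one : Good (LinearMap.id : Vs K P N →ₗ[K] Vs K P N) :=
  ⟨0, fun _ _ _ => rfl, fun _ _ hx => hx⟩

theorem Good.layer {T : Vs K P N →ₗ[K] Vs K P N} (hT : Good T) :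
    ∃ m0, ∀ m, m0 ≤ m → sl (m + 1) T = (Fintype.card N : K) * sl m T := by
  obtain ⟨m0, h1, _⟩ := hT
  refine ⟨m0, fun m hm => ?_⟩
  rw [sl, sl, Finset.mul_sum]
  refine Finset.sum_congr rfl fun o _ => ?_
  rw [ws_snoc]
  have : ∀ j : N, ws m (fun w => T (bv (o, w ++ [j])) (o, w ++ [j])) =
      ws m (fun w => T (bv (o, w)) (o, w)) := by
    intro j
    refine ws_congr m _ _ fun w hw => ?_
    have h2 := h1 j (bv (o, w)) (bv_mem_Z (by simpa [hw] using hm))
    have h3 : R j (bv (o, w) : Vs K P N) = bv (o, w ++ [j]) := by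
      rw [R, Finsupp.lmapDomain_apply, Finsupp.mapDomain_single]
      rfl
    rw [← h3, h2, R, Finsupp.lmapDomain_apply]
    exact Finsupp.mapDomain_apply (ap_inj j) _ (o, w)
  rw [Finset.sum_congr rfl fun j _ => this j, Finset.sum_const, Finset.card_univ, nsmul_eq_mul]

theorem Good.tau {T : Vs K P N →ₗ[K] Vs K P N} (hT : Good T) : ∃ c, Tau T c := by
  obtain ⟨m0, h⟩ := hT.layer
  refine ⟨db m0 T, m0, fun m hm => ?_⟩
  induction m, hm using Nat.le_induction with
  | base => rfl
  | succ m hm ih =>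
    rw [← ih, db, db]
    have e1 : sb (m + 1 + 1) T = sb (m + 1) T + sl (m + 1 + 1) T := by
      rw [sb, Finset.sum_range_succ]; rfl
    have e2 : sb (m + 1) T = sb m T + sl (m + 1) T := by
      rw [sb, Finset.sum_range_succ]; rfl
    rw [e1, h (m + 1) (by omega), e2]
    ring

theorem tau_one : Tau (LinearMap.id : Vs K P N →ₗ[K] Vs K P N) (Fintype.card (Option P)) := by
  have h0 : sl 0 (LinearMap.id : Vs K P N →ₗ[K] Vs K P N) = Fintype.card (Option P) := by
    simp [sl, ws]
  have hl : ∀ m, sl (m + 1) (LinearMap.id : Vs K P N →ₗ[K] Vs K P N) =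
      (Fintype.card N : K) * sl m (LinearMap.id : Vs K P N →ₗ[K] Vs K P N) := by
    intro m
    rw [sl, sl, Finset.mul_sum]
    refine Finset.sum_congr rfl fun o _ => ?_
    rw [ws_snoc]
    have : ∀ j : N, ws m (fun w => (LinearMap.id : Vs K P N →ₗ[K] Vs K P N)
        (bv (o, w ++ [j])) (o, w ++ [j])) =
        ws m (fun w => (LinearMap.id : Vs K P N →ₗ[K] Vs K P N) (bv (o, w)) (o, w)) := by
      intro j
      refine ws_congr m _ _ fun w _ => ?_
      simp
    rw [Finset.sum_congr rfl fun j _ => this j, Finset.sum_const, Finset.card_univ, nsmul_eq_mul]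
  refine ⟨0, fun m _ => ?_⟩
  rw [db, sb, Finset.sum_range_succ', h0, Finset.sum_congr rfl fun k _ => hl k, ← Finset.mul_sum, sb]
  ring

theorem tau_fin {T : Vs K P N →ₗ[K] Vs K P N} (fT : Module.Finite K (LinearMap.range T)) :
    Tau T ((1 - (Fintype.card N : K)) * rtr T) := by
  obtain ⟨S0, hS0⟩ := supp_bound T fT
  obtain ⟨M, hM⟩ : ∃ M, ∀ b ∈ S0, b.2.length ≤ M :=
    ⟨S0.sup fun b => b.2.length, fun b hb => Finset.le_sup (f := fun b : Bs P N => b.2.length) hb⟩
  have key : ∀ m, M ≤ m → sb m T = rtr T := by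
    intro m hm
    have h1 : sb m T = ∑ b ∈ (Finset.univ : Finset (Option P)) ×ˢ
        ((Finset.range (m + 1)).biUnion (Wd (N := N))), T (bv b) b := by
      rw [Finset.sum_product, sb]
      simp only [sl, ws_eq]
      rw [Finset.sum_comm]
      refine Finset.sum_congr rfl fun o _ => ?_
      rw [Finset.sum_biUnion]
      intro i _ j _ hij
      rw [Function.onFun, Finset.disjoint_left]
      intro w hw hw'
      rw [mem_Wd] at hw hw'
      exact hij (hw.symm.trans hw')
    rw [h1]
    refine diag_sum T fT _ fun x b hb => ?_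
    have := hM b (hS0 x hb)
    simp only [Finset.mem_product, Finset.mem_univ, true_and, Finset.mem_biUnion, Finset.mem_range,
      mem_Wd]
    exact ⟨_, by omega, rfl⟩
  refine ⟨M, fun m hm => ?_⟩
  rw [db, key m hm, key (m + 1) (by omega)]
  ring

end Pool.Agent.X329.Leavitt
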